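import Pool.Agent.X145.BB.Exch

/-! The random graph process, Builder's strategies and the random nearest neighbour graph. -/

set_option autoImplicit false
set_option linter.unusedSectionVars false

namespace Pool.Agent.X145.BB

open Finset Filter Topology

/-- The edges of the complete graph on `Fin n`. -/
abbrev Edge (n : ℕ) := {e : Sym2 (Fin n) // ¬ e.IsDiag}

/-- An ordering `e_1, e_2, ...` of the edges (positions are counted from `0`). -/
abbrev Ordering (n : ℕ) := Fin (n.choose 2) ≃ Edge n

/-- Probability of an event under the uniformly random ordering. -/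
noncomputable def prob (n : ℕ) (A : Ordering n → Prop) : ℝ :=
  (Nat.card {σ : Ordering n // A σ} : ℝ) / (Nat.card (Ordering n) : ℝ)

/-- The degree of `v` in the graph with edge set `F`. -/
def deg {n : ℕ} (F : Finset (Edge n)) (v : Fin n) : ℕ := (F.filter (fun e => v ∈ e.1)).card

/-- The edge set of `G_t`: the first `t` edges. -/
def shown {n : ℕ} (σ : Ordering n) (t : ℕ) : Finset (Edge n) :=
  univ.filter (fun e => (σ.symm e : ℕ) < t)

/-- The hitting time `τ_k` of minimum degree at least `k`. -/
noncomputable def tau {n : ℕ} (k : ℕ) (σ : Ordering n) : ℕ :=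
  sInf {t : ℕ | ∀ v, k ≤ deg (shown σ t) v}

/-- A (deterministic) rule of Builder: `S s e B` says that at the step at which `s` edges have
already been shown, when the current edge is `e` and the set of the edges bought so far is `B`,
he buys `e`. -/
abbrev Rule (n : ℕ) := ℕ → Edge n → Finset (Edge n) → Prop

open Classical in
/-- The set `B_t` of the edges bought during the first `t` steps. -/
noncomputable def bought {n : ℕ} (S : Rule n) (σ : Ordering n) : ℕ → Finset (Edge n)
  | 0 => ∅
  | t + 1 =>
    if h : t < n.choose 2 then
      if S t (σ ⟨t, h⟩) (bought S σ t) then insert (σ ⟨t, h⟩) (bought S σ t) else bought S σ t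
    else bought S σ t

/-- the edges at the positions `m ≤ i < t` -/
def mid {n : ℕ} (σ : Ordering n) (m t : ℕ) : Finset (Edge n) :=
  univ.filter (fun e => m ≤ (σ.symm e : ℕ) ∧ (σ.symm e : ℕ) < t)

section basic
variable {n : ℕ}

theorem deg_mono {F G : Finset (Edge n)} (h : F ⊆ G) (v : Fin n) : deg F v ≤ deg G v :=
  Finset.card_le_card (Finset.filter_subset_filter _ h)

theorem deg_insert {F : Finset (Edge n)} {e : Edge n} (he : e ∉ F) (v : Fin n) :
    deg (insert e F) v = deg F v + (if v ∈ e.1 then 1 else 0) := by
  unfold deg
  rw [Finset.filter_insert]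
  split_ifs with h
  · rw [Finset.card_insert_of_notMem]
    intro h'
    exact he (Finset.mem_filter.1 h').1
  · rfl

/-- an edge has exactly two vertices -/
theorem card_verts (e : Edge n) : (univ.filter (fun v : Fin n => v ∈ e.1)).card = 2 := by
  obtain ⟨e, he⟩ := e
  induction e with
  | _ x y =>
    have hxy : x ≠ y := by simpa using he
    have : (univ.filter (fun v : Fin n => v ∈ s(x,y))) = {x, y} := by
      ext v; simp
    simp only
    rw [this, Finset.card_pair hxy]

theorem sum_deg (F : Finset (Edge n)) : ∑ v, deg F v = 2 * F.card := by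
  unfold deg
  simp_rw [Finset.card_filter]
  rw [Finset.sum_comm]
  have : ∀ e ∈ F, ∑ v : Fin n, (if v ∈ e.1 then 1 else 0) = 2 := by
    intro e _
    rw [← Finset.card_filter]
    exact card_verts e
  rw [Finset.sum_congr rfl this, Finset.sum_const, smul_eq_mul, mul_comm]

/-- the number of edges at a vertex -/
theorem deg_univ (v : Fin n) : deg (univ : Finset (Edge n)) v = n - 1 := by
  unfold deg
  have : (univ.filter (fun e : Edge n => v ∈ e.1)).card = (univ.erase v : Finset (Fin n)).card := by
    symm
    refine Finset.card_bij (fun w hw => (⟨s(v, w), by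
        have := Finset.ne_of_mem_erase hw
        simpa using this.symm⟩ : Edge n)) ?_ ?_ ?_
    · intro w hw; simp
    · intro w hw w' hw' h
      have h1 : s(v, w) = s(v, w') := congrArg Subtype.val h
      exact Sym2.congr_right.1 h1
    · intro e he
      have hm := (Finset.mem_filter.1 he).2
      obtain ⟨w, hw⟩ := Sym2.mem_iff_exists.1 hm
      refine ⟨w, ?_, Subtype.ext hw.symm⟩
      rw [Finset.mem_erase]
      refine ⟨?_, Finset.mem_univ _⟩
      rintro rfl
      apply e.2
      rw [hw]
      simp
  rw [this, Finset.card_erase_of_mem (Finset.mem_univ _), Finset.card_univ, Fintype.card_fin]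

theorem mem_shown {σ : Ordering n} {t : ℕ} {e : Edge n} : e ∈ shown σ t ↔ (σ.symm e : ℕ) < t := by
  simp [shown]

theorem mem_mid {σ : Ordering n} {m t : ℕ} {e : Edge n} :
    e ∈ mid σ m t ↔ m ≤ (σ.symm e : ℕ) ∧ (σ.symm e : ℕ) < t := by
  simp [mid]

theorem shown_top (σ : Ordering n) : shown σ (n.choose 2) = univ := by
  ext e; simp [shown]

theorem bought_subset (S : Rule n) (σ : Ordering n) (t : ℕ) : bought S σ t ⊆ shown σ t := by
  classical
  induction t with
  | zero => simp [bought]
  | succ t ih =>
    have ih' : bought S σ t ⊆ shown σ (t+1) := by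
      intro e he
      have := mem_shown.1 (ih he)
      exact mem_shown.2 (by omega)
    unfold bought
    split_ifs with h h2
    · intro e he
      rcases Finset.mem_insert.1 he with rfl | he
      · rw [mem_shown]; simp
      · exact ih' he
    · exact ih'
    · exact ih'

theorem notMem_bought (S : Rule n) (σ : Ordering n) (t : ℕ) (h : t < n.choose 2) :
    σ ⟨t, h⟩ ∉ bought S σ t := by
  intro h'
  have := mem_shown.1 (bought_subset S σ t h')
  simp at this

theorem bought_mono (S : Rule n) (σ : Ordering n) {s t : ℕ} (h : s ≤ t) :
    bought S σ s ⊆ bought S σ t := by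
  classical
  induction t, h using Nat.le_induction with
  | base => exact Finset.Subset.refl _
  | succ t _ ih =>
    refine ih.trans ?_
    conv_rhs => unfold bought
    split_ifs
    · exact Finset.subset_insert _ _
    · exact Finset.Subset.refl _
    · exact Finset.Subset.refl _

/-- one step, as a case distinction -/
theorem bought_succ (S : Rule n) (σ : Ordering n) (t : ℕ) :
    (∃ h : t < n.choose 2, S t (σ ⟨t, h⟩) (bought S σ t) ∧
      bought S σ (t+1) = insert (σ ⟨t, h⟩) (bought S σ t)) ∨
    ((∀ h : t < n.choose 2, ¬ S t (σ ⟨t, h⟩) (bought S σ t)) ∧ bought S σ (t+1) = bought S σ t) := by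
  classical
  by_cases h : t < n.choose 2
  · by_cases h2 : S t (σ ⟨t, h⟩) (bought S σ t)
    · left
      refine ⟨h, h2, ?_⟩
      conv_lhs => unfold bought
      rw [dif_pos h, if_pos h2]
    · right
      refine ⟨fun _ => h2, ?_⟩
      conv_lhs => unfold bought
      rw [dif_pos h, if_neg h2]
  · right
    refine ⟨fun h' => absurd h' h, ?_⟩
    conv_lhs => unfold bought
    rw [dif_neg h]

end basic

/-- Builder's cheap rule: during the first `m` steps he buys an edge only if both ends have degree
less than `k` in his graph, later if at least one end has degree less than `k`; he stops when the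
budget `b` is used up. -/
def cheap (n k m b : ℕ) : Rule n := fun s e B =>
  B.card < b ∧ (if s < m then ∀ v ∈ e.1, deg B v < k else ∃ v ∈ e.1, deg B v < k)

section det
variable {n : ℕ} (k m b : ℕ) (σ : Ordering n)

theorem cheap_card (t : ℕ) : (bought (cheap n k m b) σ t).card ≤ b := by
  induction t with
  | zero => simp [bought]
  | succ t ih =>
    rcases bought_succ (cheap n k m b) σ t with ⟨h, h2, h3⟩ | ⟨_, h3⟩
    · rw [h3]
      have := h2.1
      exact (Finset.card_insert_le _ _).trans (by omega)
    · rw [h3]; exact ih

theorem cheap_deg_le (t : ℕ) (ht : t ≤ m) (v : Fin n) :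
    deg (bought (cheap n k m b) σ t) v ≤ k := by
  induction t with
  | zero => simp [bought, deg]
  | succ t ih =>
    have ih' := ih (by omega)
    rcases bought_succ (cheap n k m b) σ t with ⟨h, h2, h3⟩ | ⟨_, h3⟩
    · rw [h3, deg_insert (notMem_bought _ _ _ _)]
      have h4 := h2.2
      rw [if_pos (by omega)] at h4
      split_ifs with h5
      · have := h4 v h5; omega
      · omega
    · rw [h3]; exact ih'

/-- the potential -/
def phi (k : ℕ) (F : Finset (Edge n)) : ℕ := ∑ v, min k (deg F v)

theorem phi_le (F : Finset (Edge n)) : phi k F ≤ k * n := by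
  unfold phi
  calc ∑ v, min k (deg F v) ≤ ∑ _v : Fin n, k := Finset.sum_le_sum (fun v _ => min_le_left _ _)
    _ = k * n := by simp [mul_comm]

theorem phase_one (t : ℕ) (ht : t ≤ m) :
    2 * (bought (cheap n k m b) σ t).card = phi k (bought (cheap n k m b) σ t) := by
  rw [← sum_deg]
  unfold phi
  apply Finset.sum_congr rfl
  intro v _
  rw [min_eq_right (cheap_deg_le k m b σ t ht v)]

theorem phi_insert {F : Finset (Edge n)} {e : Edge n} (he : e ∉ F) (hv : ∃ v ∈ e.1, deg F v < k) :
    phi k F + 1 ≤ phi k (insert e F) := by
  obtain ⟨v, hv, hd⟩ := hv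
  unfold phi
  apply Nat.succ_le_of_lt
  apply Finset.sum_lt_sum
  · intro w _
    exact min_le_min_left _ (deg_mono (Finset.subset_insert _ _) w)
  · refine ⟨v, Finset.mem_univ _, ?_⟩
    rw [deg_insert he, if_pos hv]
    omega

theorem phase_two (t : ℕ) (ht : m ≤ t) :
    (bought (cheap n k m b) σ t).card + phi k (bought (cheap n k m b) σ m)
      ≤ phi k (bought (cheap n k m b) σ t) + (bought (cheap n k m b) σ m).card := by
  induction t, ht using Nat.le_induction with
  | base => omega
  | succ t ht ih =>
    rcases bought_succ (cheap n k m b) σ t with ⟨h, h2, h3⟩ | ⟨_, h3⟩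
    · rw [h3]
      have h4 := h2.2
      rw [if_neg (by omega)] at h4
      have h5 := phi_insert k (notMem_bought (cheap n k m b) σ t h) h4
      rw [Finset.card_insert_of_notMem (notMem_bought (cheap n k m b) σ t h)]
      omega
    · rw [h3]; exact ih

/-- the vertices of degree less than `k` in Builder's graph -/
def unsat (k : ℕ) (F : Finset (Edge n)) : Finset (Fin n) := univ.filter (fun v => deg F v < k)

theorem phi_ge (F : Finset (Edge n)) : k * n ≤ phi k F + k * (unsat k F).card := by
  unfold phi unsat
  rw [Finset.card_filter, Finset.mul_sum, ← Finset.sum_add_distrib]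
  calc k * n = ∑ _v : Fin n, k := by simp [mul_comm]
    _ ≤ _ := by
      apply Finset.sum_le_sum
      intro v _
      split_ifs with h
      · omega
      · rw [min_eq_left (by omega)]; omega

/-- the cost of the rule -/
theorem cost (t : ℕ) (ht : m ≤ t) :
    2 * (bought (cheap n k m b) σ t).card
      ≤ k * n + k * (unsat k (bought (cheap n k m b) σ m)).card := by
  have h1 := phase_one k m b σ m le_rfl
  have h2 := phase_two k m b σ t ht
  have h3 := phi_le k (bought (cheap n k m b) σ t)
  have h4 := phi_ge k (bought (cheap n k m b) σ m)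
  omega

theorem cost' (t : ℕ) (ht : t ≤ m) : 2 * (bought (cheap n k m b) σ t).card ≤ k * n := by
  rw [phase_one k m b σ t ht]
  exact phi_le k _

/-- in the second phase every edge at a vertex of small degree is bought -/
theorem catch_up (hb : k * n + k * (unsat k (bought (cheap n k m b) σ m)).card < 2 * b)
    (t : ℕ) (ht : m ≤ t) (v : Fin n) :
    min k (deg (mid σ m t) v) ≤ deg (bought (cheap n k m b) σ t) v := by
  induction t, ht using Nat.le_induction with
  | base =>
    have : mid σ m m = ∅ := by
      ext e; simp [mid]
    rw [this]; simp [deg]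
  | succ t ht ih =>
    by_cases h : t < n.choose 2
    · have hmid : mid σ m (t+1) = insert (σ ⟨t, h⟩) (mid σ m t) := by
        ext e
        rw [Finset.mem_insert, mem_mid, mem_mid]
        constructor
        · rintro ⟨h1, h2⟩
          by_cases h3 : (σ.symm e : ℕ) = t
          · left
            have : σ.symm e = ⟨t, h⟩ := Fin.ext h3
            rw [← this]; simp
          · right; omega
        · rintro (rfl | h1)
          · simp [ht]
          · omega
      have hnm : σ ⟨t, h⟩ ∉ mid σ m t := by
        rw [mem_mid]; simp
      rw [hmid, deg_insert hnm]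
      have hmono := deg_mono (bought_mono (cheap n k m b) σ (Nat.le_succ t)) v
      by_cases hk : k ≤ deg (bought (cheap n k m b) σ t) v
      · have : min k (deg (mid σ m t) v + if v ∈ (σ ⟨t, h⟩).1 then 1 else 0) ≤ k := min_le_left _ _
        simp only [Nat.succ_eq_add_one] at hmono
        omega
      · push Not at hk
        by_cases hv : v ∈ (σ ⟨t, h⟩).1
        · have hS : cheap n k m b t (σ ⟨t, h⟩) (bought (cheap n k m b) σ t) := by
            refine ⟨?_, ?_⟩
            · have := cost k m b σ t ht
              omega
            · rw [if_neg (by omega)]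
              exact ⟨v, hv, hk⟩
          rcases bought_succ (cheap n k m b) σ t with ⟨h', h2, h3⟩ | ⟨h2, _⟩
          · rw [h3, deg_insert (notMem_bought _ _ _ _)]
            simp only [if_pos hv]
            omega
          · exact absurd hS (h2 h)
        · rw [if_neg hv]
          simp only [Nat.succ_eq_add_one] at hmono
          simpa using ih.trans hmono
    · have hmid : mid σ m (t+1) = mid σ m t := by
        ext e
        rw [mem_mid, mem_mid]
        have := (σ.symm e).2
        omega
      rw [hmid]
      exact ih.trans (deg_mono (bought_mono (cheap n k m b) σ (Nat.le_succ t)) v)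

end det

end Pool.Agent.X145.BB
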