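import Mathlib

/-! Exchangeability of the positions of a uniformly random ordering. -/

set_option autoImplicit false
set_option linter.unusedSectionVars false

namespace Pool.Agent.X145.BB

open Finset Filter Topology

section
variable {P E : Type*} [Fintype P] [DecidableEq P] [Fintype E] [DecidableEq E]

/-- exchanging two positions -/
def sw (p q : P) (σ : P ≃ E) : P ≃ E := (Equiv.swap p q).trans σ

theorem sw_apply (p q r : P) (σ : P ≃ E) : sw p q σ r = σ (Equiv.swap p q r) := rfl

theorem sw_sw (p q : P) (σ : P ≃ E) : sw p q (sw p q σ) = σ := by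
  ext r
  simp [sw_apply]

/-- `sw` as a bijection of the orderings -/
def swE (p q : P) : (P ≃ E) ≃ (P ≃ E) where
  toFun := sw p q
  invFun := sw p q
  left_inv := sw_sw p q
  right_inv := sw_sw p q

/-- invariance under exchanges of positions in `W` -/
def Inv (W : Finset P) {α : Type*} (f : (P ≃ E) → α) : Prop :=
  ∀ σ : P ≃ E, ∀ p ∈ W, ∀ q ∈ W, f (sw p q σ) = f σ

open Classical in
/-- number of elements with a property, as a real number -/
noncomputable def cnt {Ω : Type*} [Fintype Ω] (A : Ω → Prop) : ℝ := ∑ σ : Ω, if A σ then (1:ℝ) else 0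

open Classical in
theorem exch (W : Finset P) (f : (P ≃ E) → ℝ) (R : (P ≃ E) → E → Prop)
    (hf : Inv W f) (hR : Inv W R) (p : P) (hp : p ∈ W) :
    (W.card : ℝ) * ∑ σ : P ≃ E, f σ * (if R σ (σ p) then 1 else 0)
      = ∑ σ : P ≃ E, f σ * ((W.filter (fun q => R σ (σ q))).card : ℝ) := by
  have h1 : ∀ q ∈ W, ∑ σ : P ≃ E, f σ * (if R σ (σ q) then (1:ℝ) else 0)
      = ∑ σ : P ≃ E, f σ * (if R σ (σ p) then 1 else 0) := by
    intro q hq
    rw [← Equiv.sum_comp (swE p q)]
    apply Finset.sum_congr rfl
    intro σ _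
    have e1 : (swE p q) σ = sw p q σ := rfl
    rw [e1, hf σ p hp q hq, hR σ p hp q hq, sw_apply, Equiv.swap_apply_right]
  calc (W.card : ℝ) * ∑ σ : P ≃ E, f σ * (if R σ (σ p) then 1 else 0)
      = ∑ q ∈ W, ∑ σ : P ≃ E, f σ * (if R σ (σ q) then (1:ℝ) else 0) := by
        rw [Finset.sum_congr rfl h1, Finset.sum_const, nsmul_eq_mul]
    _ = ∑ σ : P ≃ E, ∑ q ∈ W, f σ * (if R σ (σ q) then (1:ℝ) else 0) := Finset.sum_comm
    _ = _ := by
        apply Finset.sum_congr rfl
        intro σ _
        rw [← Finset.mul_sum, Finset.card_filter]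
        push_cast
        rfl

open Classical in
/-- exposure of positions one by one: if as long as `K` holds the next position is a success with
conditional probability at least `p`, then `K` and few successes is exponentially unlikely. -/
theorem cov (T : ℕ) (W : ℕ → Finset P) (pos : ℕ → P) (hpos : ∀ t < T, pos t ∈ W t)
    (R : ℕ → (P ≃ E) → E → Prop) (K : ℕ → (P ≃ E) → Prop) (c : ℕ → (P ≃ E) → ℕ)
    (hRi : ∀ t < T, Inv (W t) (R t)) (hKi : ∀ t < T, Inv (W t) (K t))
    (hci : ∀ t < T, Inv (W t) (c t))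
    (hc0 : ∀ t < T, ∀ σ, K (t+1) σ → c t σ ≤ c (t+1) σ)
    (hc1 : ∀ t < T, ∀ σ, K (t+1) σ → R t σ (σ (pos t)) → c t σ + 1 ≤ c (t+1) σ)
    (hK : ∀ t < T, ∀ σ, K (t+1) σ → K t σ)
    (p : ℝ) (hp1 : p ≤ 1)
    (hp' : ∀ t < T, ∀ σ, K t σ → ∃ S : Finset P, S ⊆ W t ∧ (∀ q ∈ S, R t σ (σ q)) ∧
      p * (W t).card ≤ (S.card : ℝ)) (M : ℕ) (hM : ∀ σ, K T σ → c T σ ≤ M) :
    cnt (K T) ≤ 2 ^ M * (1 - p / 2) ^ T * (Fintype.card (P ≃ E) : ℝ) := by
  have hp : ∀ t < T, ∀ σ, K t σ → p * (W t).card
      ≤ (((W t).filter (fun q => R t σ (σ q))).card : ℝ) := by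
    intro t ht σ hk
    obtain ⟨S, h1, h2, h3⟩ := hp' t ht σ hk
    refine h3.trans ?_
    have : S.card ≤ ((W t).filter (fun q => R t σ (σ q))).card := by
      apply Finset.card_le_card
      intro q hq
      exact Finset.mem_filter.2 ⟨h1 hq, h2 q hq⟩
    exact_mod_cast this
  have key : ∀ t ≤ T, ∑ σ : P ≃ E, (if K t σ then ((1:ℝ)/2) ^ (c t σ) else 0)
      ≤ (1 - p / 2) ^ t * (Fintype.card (P ≃ E) : ℝ) := by
    intro t
    induction t with
    | zero =>
      intro _
      rw [pow_zero, one_mul]
      calc ∑ σ : P ≃ E, (if K 0 σ then ((1:ℝ)/2) ^ (c 0 σ) else 0)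
          ≤ ∑ σ : P ≃ E, (1:ℝ) := by
            apply Finset.sum_le_sum
            intro σ _
            split_ifs
            · exact pow_le_one₀ (by norm_num) (by norm_num)
            · norm_num
        _ = _ := by simp
    | succ t ih =>
      intro ht
      have htT : t < T := by omega
      have ih' := ih (by omega)
      set f : (P ≃ E) → ℝ := fun σ => if K t σ then ((1:ℝ)/2) ^ (c t σ) else 0 with hfdef
      have hf0 : ∀ σ, 0 ≤ f σ := by
        intro σ
        simp only [hfdef]
        split_ifs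
        · positivity
        · exact le_rfl
      have hfi : Inv (W t) f := by
        intro σ a ha b hb
        simp only [hfdef]
        rw [hKi t htT σ a ha b hb, hci t htT σ a ha b hb]
      have hex := exch (W t) f (R t) hfi (hRi t htT) (pos t) (hpos t htT)
      have hW : (0:ℝ) < (W t).card := by
        have : 0 < (W t).card := Finset.card_pos.2 ⟨_, hpos t htT⟩
        exact_mod_cast this
      have hlow : p * ∑ σ : P ≃ E, f σ
          ≤ ∑ σ : P ≃ E, f σ * (if R t σ (σ (pos t)) then 1 else 0) := by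
        have h2 : ((W t).card : ℝ) * (p * ∑ σ : P ≃ E, f σ)
            ≤ ∑ σ : P ≃ E, f σ * (((W t).filter (fun q => R t σ (σ q))).card : ℝ) := by
          rw [Finset.mul_sum, Finset.mul_sum]
          apply Finset.sum_le_sum
          intro σ _
          by_cases hk : K t σ
          · have := mul_le_mul_of_nonneg_left (hp t htT σ hk) (hf0 σ)
            nlinarith [this]
          · have : f σ = 0 := by simp only [hfdef]; rw [if_neg hk]
            rw [this]; simp
        rw [← hex] at h2
        exact le_of_mul_le_mul_left h2 hW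
      calc ∑ σ : P ≃ E, (if K (t+1) σ then ((1:ℝ)/2) ^ (c (t+1) σ) else 0)
          ≤ ∑ σ : P ≃ E, (f σ - (1/2) * (f σ * (if R t σ (σ (pos t)) then 1 else 0))) := by
            apply Finset.sum_le_sum
            intro σ _
            by_cases hk : K (t+1) σ
            · have hk' := hK t htT σ hk
              rw [if_pos hk]
              have hfs : f σ = ((1:ℝ)/2) ^ (c t σ) := by simp only [hfdef]; rw [if_pos hk']
              rw [hfs]
              by_cases hr : R t σ (σ (pos t))
              · have hcc := hc1 t htT σ hk hr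
                rw [if_pos hr]
                calc ((1:ℝ)/2) ^ (c (t+1) σ) ≤ ((1:ℝ)/2) ^ (c t σ + 1) :=
                      pow_le_pow_of_le_one (by norm_num) (by norm_num) hcc
                  _ = _ := by rw [pow_succ]; ring
              · have hcc : c t σ + 0 ≤ c (t+1) σ := hc0 t htT σ hk
                rw [if_neg hr]
                calc ((1:ℝ)/2) ^ (c (t+1) σ) ≤ ((1:ℝ)/2) ^ (c t σ + 0) :=
                      pow_le_pow_of_le_one (by norm_num) (by norm_num) hcc
                  _ = _ := by simp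
            · rw [if_neg hk]
              have h0 := hf0 σ
              split_ifs
              · linarith
              · linarith
        _ = ∑ σ : P ≃ E, f σ - (1/2) * ∑ σ : P ≃ E, f σ * (if R t σ (σ (pos t)) then 1 else 0) := by
            rw [Finset.sum_sub_distrib, Finset.mul_sum]
        _ ≤ ∑ σ : P ≃ E, f σ - (1/2) * (p * ∑ σ : P ≃ E, f σ) := by linarith
        _ = (1 - p / 2) * ∑ σ : P ≃ E, f σ := by ring
        _ ≤ (1 - p / 2) * ((1 - p / 2) ^ t * (Fintype.card (P ≃ E) : ℝ)) :=
            mul_le_mul_of_nonneg_left ih' (by linarith)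
        _ = _ := by rw [pow_succ]; ring
  have hfin := key T le_rfl
  have hlow : (1/2:ℝ) ^ M * cnt (K T)
      ≤ ∑ σ : P ≃ E, (if K T σ then ((1:ℝ)/2) ^ (c T σ) else 0) := by
    unfold cnt
    rw [Finset.mul_sum]
    apply Finset.sum_le_sum
    intro σ _
    by_cases h : K T σ
    · rw [if_pos h, if_pos h, mul_one]
      exact pow_le_pow_of_le_one (by norm_num) (by norm_num) (hM σ h)
    · rw [if_neg h, if_neg h]; simp
  have h8 := hlow.trans hfin
  have h9 : (2:ℝ) ^ M * (1/2:ℝ) ^ M = 1 := by
    rw [← mul_pow]; norm_num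
  calc cnt (K T)
      = 2 ^ M * ((1/2:ℝ) ^ M * cnt (K T)) := by
        rw [← mul_assoc, h9, one_mul]
    _ ≤ 2 ^ M * ((1 - p / 2) ^ T * (Fintype.card (P ≃ E) : ℝ)) :=
        mul_le_mul_of_nonneg_left h8 (by positivity)
    _ = _ := by ring

open Classical in
/-- lower bound: avoiding a rare relation at `m` successive positions. -/
theorem avoid (m : ℕ) (W : ℕ → Finset P) (pos : ℕ → P) (hpos : ∀ i < m, pos i ∈ W i)
    (R : (P ≃ E) → E → Prop) (A : (P ≃ E) → Prop)
    (hRi : ∀ i < m, Inv (W i) R) (hAi : ∀ i < m, Inv (W i) A)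
    (hposi : ∀ i < m, ∀ j < i, pos j ∉ W i)
    (d w : ℝ) (hw : 0 < w) (hdw : d ≤ w)
    (hW : ∀ i < m, w ≤ (W i).card)
    (hR' : ∀ i < m, ∀ σ, ∀ S : Finset P, S ⊆ W i → (∀ q ∈ S, R σ (σ q)) → (S.card : ℝ) ≤ d) :
    (1 - d / w) ^ m * cnt A ≤ cnt (fun σ => A σ ∧ ∀ j < m, ¬ R σ (σ (pos j))) := by
  have hR : ∀ i < m, ∀ σ, (((W i).filter (fun q => R σ (σ q))).card : ℝ) ≤ d := by
    intro i hi σ
    exact hR' i hi σ _ (Finset.filter_subset _ _) (fun q hq => (Finset.mem_filter.1 hq).2)
  have key : ∀ i ≤ m, (1 - d / w) ^ i * ∑ σ : P ≃ E, (if A σ then (1:ℝ) else 0)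
      ≤ ∑ σ : P ≃ E, (if A σ ∧ ∀ j < i, ¬ R σ (σ (pos j)) then (1:ℝ) else 0) := by
    intro i
    induction i with
    | zero => intro _; simp
    | succ i ih =>
      intro hi
      have him : i < m := by omega
      have ih' := ih (by omega)
      set f : (P ≃ E) → ℝ := fun σ => if A σ ∧ ∀ j < i, ¬ R σ (σ (pos j)) then (1:ℝ) else 0 with hfdef
      have hf0 : ∀ σ, 0 ≤ f σ := by
        intro σ
        simp only [hfdef]
        split_ifs
        · norm_num
        · exact le_rfl
      have hfi : Inv (W i) f := by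
        intro σ a ha b hb
        simp only [hfdef]
        rw [hAi i him σ a ha b hb, hRi i him σ a ha b hb]
        have : ∀ j < i, sw a b σ (pos j) = σ (pos j) := by
          intro j hj
          have hnj := hposi i him j hj
          rw [sw_apply, Equiv.swap_apply_of_ne_of_ne]
          · rintro rfl; exact hnj ha
          · rintro rfl; exact hnj hb
        have h2 : (∀ j < i, ¬ R σ (sw a b σ (pos j))) ↔ (∀ j < i, ¬ R σ (σ (pos j))) := by
          constructor
          · intro h j hj; rw [← this j hj]; exact h j hj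
          · intro h j hj; rw [this j hj]; exact h j hj
        simp only [h2]
      have hex := exch (W i) f R hfi (hRi i him) (pos i) (hpos i him)
      have hWi := hW i him
      have hWp : (0:ℝ) < (W i).card := lt_of_lt_of_le hw hWi
      have hup : ∑ σ : P ≃ E, f σ * (if R σ (σ (pos i)) then 1 else 0)
          ≤ d / w * ∑ σ : P ≃ E, f σ := by
        have h2 : ((W i).card : ℝ) * ∑ σ : P ≃ E, f σ * (if R σ (σ (pos i)) then 1 else 0)
            ≤ d * ∑ σ : P ≃ E, f σ := by
          rw [hex, Finset.mul_sum]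
          apply Finset.sum_le_sum
          intro σ _
          have := mul_le_mul_of_nonneg_left (hR i him σ) (hf0 σ)
          linarith [this]
        have h3 : 0 ≤ ∑ σ : P ≃ E, f σ * (if R σ (σ (pos i)) then 1 else 0) := by
          apply Finset.sum_nonneg
          intro σ _
          have := hf0 σ
          split_ifs <;> simp [this]
        have h4 : w * ∑ σ : P ≃ E, f σ * (if R σ (σ (pos i)) then 1 else 0)
            ≤ d * ∑ σ : P ≃ E, f σ := le_trans (mul_le_mul_of_nonneg_right hWi h3) h2
        rw [div_mul_eq_mul_div, le_div_iff₀ hw]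
        linarith
      have hdw1 : 0 ≤ 1 - d / w := by
        rw [sub_nonneg, div_le_one hw]; exact hdw
      calc (1 - d / w) ^ (i+1) * ∑ σ : P ≃ E, (if A σ then (1:ℝ) else 0)
          = (1 - d / w) * ((1 - d / w) ^ i * ∑ σ : P ≃ E, (if A σ then (1:ℝ) else 0)) := by
            rw [pow_succ]; ring
        _ ≤ (1 - d / w) * ∑ σ : P ≃ E, f σ := mul_le_mul_of_nonneg_left ih' hdw1
        _ = ∑ σ : P ≃ E, f σ - d / w * ∑ σ : P ≃ E, f σ := by ring
        _ ≤ ∑ σ : P ≃ E, f σ - ∑ σ : P ≃ E, f σ * (if R σ (σ (pos i)) then 1 else 0) := by linarith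
        _ = ∑ σ : P ≃ E, (f σ - f σ * (if R σ (σ (pos i)) then 1 else 0)) := by
            rw [Finset.sum_sub_distrib]
        _ ≤ _ := by
            apply Finset.sum_le_sum
            intro σ _
            simp only [hfdef]
            by_cases h1 : A σ ∧ ∀ j < i, ¬ R σ (σ (pos j))
            · by_cases h2 : R σ (σ (pos i))
              · rw [if_pos h1, if_pos h2]
                split_ifs <;> norm_num
              · rw [if_pos h1, if_neg h2, if_pos]
                · norm_num
                · refine ⟨h1.1, ?_⟩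
                  intro j hj
                  rcases Nat.lt_succ_iff_lt_or_eq.1 hj with h | h
                  · exact h1.2 j h
                  · rw [h]; exact h2
            · rw [if_neg h1]
              split_ifs <;> norm_num
  have := key m le_rfl
  unfold cnt
  convert this

end

end Pool.Agent.X145.BB
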