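import Pool.Agent.X145.BB.Prob

/-! The end of the process. -/

set_option autoImplicit false
set_option linter.unusedSectionVars false

namespace Pool.Agent.X145.BB

open Finset Filter Topology

theorem cnt_union {Ω : Type*} [Fintype Ω] {ι : Type*} (s : Finset ι) (A : ι → Ω → Prop) :
    cnt (fun σ => ∃ t ∈ s, A t σ) ≤ ∑ t ∈ s, cnt (A t) := by
  classical
  unfold cnt
  rw [Finset.sum_comm]
  apply Finset.sum_le_sum
  intro σ _
  split_ifs with h
  · obtain ⟨t, ht, hA⟩ := h
    calc (1:ℝ) = if A t σ then (1:ℝ) else 0 := by rw [if_pos hA]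
      _ ≤ _ := Finset.single_le_sum (f := fun t => if A t σ then (1:ℝ) else 0)
        (fun i _ => by split_ifs <;> norm_num) ht
  · exact Finset.sum_nonneg (fun i _ => by split_ifs <;> norm_num)

theorem cnt_disj {Ω : Type*} [Fintype Ω] {ι : Type*} (s : Finset ι) (A : ι → Ω → Prop)
    (h : ∀ σ, ∀ t ∈ s, ∀ t' ∈ s, A t σ → A t' σ → t = t') :
    ∑ t ∈ s, cnt (A t) ≤ cnt (fun σ => ∃ t ∈ s, A t σ) := by
  classical
  unfold cnt
  rw [Finset.sum_comm]
  apply Finset.sum_le_sum
  intro σ _
  split_ifs with h1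
  · obtain ⟨t, ht, hA⟩ := h1
    rw [Finset.sum_eq_single t]
    · rw [if_pos hA]
    · intro t' ht' hne
      rw [if_neg]
      intro hA'
      exact hne (h σ t' ht' t ht hA' hA)
    · intro h'; exact absurd ht h'
  · push Not at h1
    apply le_of_eq
    apply Finset.sum_eq_zero
    intro t ht
    rw [if_neg (h1 t ht)]

variable {n : ℕ}

/-- the second phase graph gets minimum degree `k` exactly at time `t` -/
def good (k m t : ℕ) (σ : Ordering n) : Prop :=
  (∀ v, k ≤ deg (mid σ m t) v) ∧ ∀ s < t, ¬ ∀ v, k ≤ deg (mid σ m s) v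

/-- the edge `e` contains the last bad vertex -/
def lateR (k m t : ℕ) (σ : Ordering n) (e : Edge n) : Prop :=
  ∃ h : (∃ v, deg (mid σ m (t-1)) v < k), h.choose ∈ e.1

theorem partB_one (k m M t : ℕ) (hmt : m < t) (htM : t ≤ M) (hM : M < n.choose 2)
    (hdw : (n:ℝ) - 1 ≤ (n.choose 2 : ℕ) - M) (hn : 1 ≤ n) :
    (1 - ((n:ℝ) - 1) / ((n.choose 2 : ℕ) - M)) ^ m * cnt (good (n := n) k m t)
      ≤ cnt (fun σ : Ordering n => good k m t σ ∧ ∀ j : Fin (n.choose 2), (j:ℕ) < m → ¬ lateR k m t σ (σ j)) := by
  classical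
  have hN : 0 < n.choose 2 := by omega
  set pos : ℕ → Fin (n.choose 2) := fun t => ⟨t % (n.choose 2), Nat.mod_lt _ hN⟩ with hpos
  have hposv : ∀ i (ht : i < m), pos i = ⟨i, by omega⟩ := by
    intro i ht
    simp only [hpos]
    exact Fin.ext (Nat.mod_eq_of_lt (by omega))
  have hmid : ∀ i < m, ∀ σ : Ordering n,
      ∀ a ∈ univ.filter (fun j : Fin (n.choose 2) => (i ≤ (j:ℕ) ∧ (j:ℕ) < m) ∨ t ≤ (j:ℕ)),
      ∀ c ∈ univ.filter (fun j : Fin (n.choose 2) => (i ≤ (j:ℕ) ∧ (j:ℕ) < m) ∨ t ≤ (j:ℕ)),
      ∀ s ≤ t, mid (sw a c σ) m s = mid σ m s := by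
    intro i _ σ a ha c hc s hs
    have ha' := (Finset.mem_filter.1 ha).2
    have hc' := (Finset.mem_filter.1 hc).2
    apply mid_sw
    · omega
    · omega
  have h := avoid (P := Fin (n.choose 2)) (E := Edge n) m
    (fun i => univ.filter (fun j : Fin (n.choose 2) => (i ≤ (j:ℕ) ∧ (j:ℕ) < m) ∨ t ≤ (j:ℕ))) pos
    (by
      intro i hi
      rw [hposv i hi]
      simp only [Finset.mem_filter, Finset.mem_univ, true_and]
      left; exact ⟨le_rfl, hi⟩)
    (lateR k m t) (good k m t)
    (by
      intro i hi σ a ha c hc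
      funext e
      unfold lateR
      rw [hmid i hi σ a ha c hc (t-1) (by omega)])
    (by
      intro i hi σ a ha c hc
      unfold good
      apply propext
      rw [hmid i hi σ a ha c hc t le_rfl]
      refine and_congr Iff.rfl ?_
      refine forall_congr' (fun s => ?_)
      refine forall_congr' (fun hs => ?_)
      rw [hmid i hi σ a ha c hc s hs.le])
    (by
      intro i hi j hj hmem
      rw [hposv j (by omega)] at hmem
      have := (Finset.mem_filter.1 hmem).2
      simp only at this
      omega)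
    ((n:ℝ) - 1) ((n.choose 2 : ℕ) - M)
    (by
      have : (M:ℝ) < (n.choose 2 : ℕ) := by exact_mod_cast hM
      linarith)
    hdw
    (by
      intro i hi
      have h1 : n.choose 2 ≤ (univ.filter (fun j : Fin (n.choose 2) => (i ≤ (j:ℕ) ∧ (j:ℕ) < m) ∨ t ≤ (j:ℕ))).card
          + (univ.filter (fun j : Fin (n.choose 2) => (j:ℕ) < M)).card := by
        rw [← Finset.card_union_add_card_inter]
        refine le_trans ?_ (Nat.le_add_right _ _)
        calc n.choose 2 = (univ : Finset (Fin (n.choose 2))).card := by simp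
          _ ≤ _ := by
            apply Finset.card_le_card
            intro j _
            simp only [Finset.mem_union, Finset.mem_filter, Finset.mem_univ, true_and]
            omega
      have h2 : (univ.filter (fun j : Fin (n.choose 2) => (j:ℕ) < M)).card ≤ M := by
        have : (univ.filter (fun j : Fin (n.choose 2) => (j:ℕ) < M)).card ≤ (Finset.range M).card := by
          apply Finset.card_le_card_of_injOn (fun e : Fin (n.choose 2) => (e : ℕ))
          · intro e he
            simpa using he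
          · intro e _ e' _ h
            exact Fin.ext h
        simpa using this
      have h3 : ((n.choose 2 : ℕ) : ℝ) ≤ ((univ.filter (fun j : Fin (n.choose 2) => (i ≤ (j:ℕ) ∧ (j:ℕ) < m) ∨ t ≤ (j:ℕ))).card : ℝ) + M := by
        have : n.choose 2 ≤ (univ.filter (fun j : Fin (n.choose 2) => (i ≤ (j:ℕ) ∧ (j:ℕ) < m) ∨ t ≤ (j:ℕ))).card + M := by omega
        exact_mod_cast this
      linarith)
    (by
      intro i hi σ S _ hS
      by_cases hex : ∃ v, deg (mid σ m (t-1)) v < k
      · have h1 : S.card ≤ n - 1 := by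
          rw [← deg_univ hex.choose]
          unfold deg
          apply Finset.card_le_card_of_injOn (fun q => σ q)
          · intro q hq
            obtain ⟨h', hh⟩ := hS q hq
            simp only [Finset.coe_filter, Finset.mem_univ, true_and, Set.mem_ofPred_eq]
            exact hh
          · intro q _ q' _ h
            exact σ.injective h
        have h2 : (S.card : ℝ) ≤ ((n - 1 : ℕ) : ℝ) := by exact_mod_cast h1
        rw [Nat.cast_sub hn] at h2
        simpa using h2
      · have h1 : S = ∅ := by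
          rw [Finset.eq_empty_iff_forall_notMem]
          intro q hq
          obtain ⟨h', _⟩ := hS q hq
          exact hex h'
        rw [h1]
        have : (1:ℝ) ≤ n := by exact_mod_cast hn
        simp; linarith)
  refine h.trans (cnt_mono ?_)
  rintro σ ⟨h1, h2⟩
  refine ⟨h1, ?_⟩
  intro j hj
  have := h2 j hj
  rw [hposv j hj] at this
  exact this

/-- the event that the second phase graph has minimum degree `k` at a time `≤ M`, and its last bad
vertex has no edge in the first phase -/
def late (k m M : ℕ) (σ : Ordering n) : Prop :=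
  ∃ t ∈ Finset.Ioc m M, good k m t σ ∧ ∀ j : Fin (n.choose 2), (j:ℕ) < m → ¬ lateR k m t σ (σ j)

theorem partB (k m M : ℕ) (hk : 1 ≤ k) (hmM : m ≤ M) (hM : M < n.choose 2)
    (hdw : (n:ℝ) - 1 ≤ (n.choose 2 : ℕ) - M) (hn : 1 ≤ n) :
    (1 - ((n:ℝ) - 1) / ((n.choose 2 : ℕ) - M)) ^ m *
      ((Fintype.card (Ordering n) : ℝ) - ∑ v : Fin n, cnt (fun σ : Ordering n => deg (mid σ m M) v < k))
      ≤ cnt (late (n := n) k m M) := by
  classical
  have hw : (0:ℝ) < (n.choose 2 : ℕ) - M := by
    have : (M:ℝ) < (n.choose 2 : ℕ) := by exact_mod_cast hM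
    linarith
  have hpow : 0 ≤ (1 - ((n:ℝ) - 1) / ((n.choose 2 : ℕ) - M)) ^ m := by
    apply pow_nonneg
    rw [sub_nonneg, div_le_one hw]; exact hdw
  have h1 : (Fintype.card (Ordering n) : ℝ) ≤ cnt (fun σ : Ordering n => ∃ t ∈ Finset.Ioc m M, good k m t σ)
      + ∑ v : Fin n, cnt (fun σ : Ordering n => deg (mid σ m M) v < k) := by
    have h2 : (Fintype.card (Ordering n) : ℝ) ≤ cnt (fun σ : Ordering n => (∃ t ∈ Finset.Ioc m M, good k m t σ)
        ∨ (∃ v ∈ (univ : Finset (Fin n)), deg (mid σ m M) v < k)) := by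
      unfold cnt
      rw [Finset.sum_congr rfl (g := fun _ => (1:ℝ))]
      · simp
      · intro σ _
        rw [if_pos]
        by_cases hb : ∃ v ∈ (univ : Finset (Fin n)), deg (mid σ m M) v < k
        · right; exact hb
        · left
          push Not at hb
          have hM' : ∃ t, ∀ v, k ≤ deg (mid σ m t) v := ⟨M, fun v => hb v (Finset.mem_univ v)⟩
          refine ⟨Nat.find hM', ?_, Nat.find_spec hM', fun s hs => Nat.find_min hM' hs⟩
          rw [Finset.mem_Ioc]
          refine ⟨?_, Nat.find_min' hM' (fun v => hb v (Finset.mem_univ v))⟩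
          by_contra hle
          push Not at hle
          have hs := Nat.find_spec hM' ⟨0, hn⟩
          have : mid σ m (Nat.find hM') = ∅ := by
            ext e
            rw [mem_mid]
            constructor
            · intro h'; omega
            · intro h'; simp at h'
          rw [this] at hs
          simp [deg] at hs
          omega
    refine h2.trans ((cnt_or _ _).trans ?_)
    have := cnt_union (Ω := Ordering n) (univ : Finset (Fin n)) (fun v σ => deg (mid σ m M) v < k)
    linarith
  have h3 := cnt_union (Ω := Ordering n) (Finset.Ioc m M) (fun t σ => good k m t σ)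
  have h4 := cnt_disj (Ω := Ordering n) (Finset.Ioc m M)
    (fun t σ => good k m t σ ∧ ∀ j : Fin (n.choose 2), (j:ℕ) < m → ¬ lateR k m t σ (σ j))
    (by
      rintro σ t _ t' _ ⟨⟨h1, h2⟩, _⟩ ⟨⟨h1', h2'⟩, _⟩
      by_contra hne
      rcases lt_or_gt_of_ne hne with h | h
      · exact h2' t h h1
      · exact h2 t' h h1')
  have h5 : (Fintype.card (Ordering n) : ℝ) - ∑ v : Fin n, cnt (fun σ : Ordering n => deg (mid σ m M) v < k)
      ≤ ∑ t ∈ Finset.Ioc m M, cnt (good (n := n) k m t) := by linarith
  calc (1 - ((n:ℝ) - 1) / ((n.choose 2 : ℕ) - M)) ^ m *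
      ((Fintype.card (Ordering n) : ℝ) - ∑ v : Fin n, cnt (fun σ : Ordering n => deg (mid σ m M) v < k))
      ≤ (1 - ((n:ℝ) - 1) / ((n.choose 2 : ℕ) - M)) ^ m * ∑ t ∈ Finset.Ioc m M, cnt (good (n := n) k m t) :=
        mul_le_mul_of_nonneg_left h5 hpow
    _ = ∑ t ∈ Finset.Ioc m M, (1 - ((n:ℝ) - 1) / ((n.choose 2 : ℕ) - M)) ^ m * cnt (good (n := n) k m t) :=
        Finset.mul_sum _ _ _
    _ ≤ ∑ t ∈ Finset.Ioc m M, cnt (fun σ : Ordering n => good k m t σ ∧
          ∀ j : Fin (n.choose 2), (j:ℕ) < m → ¬ lateR k m t σ (σ j)) := by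
        apply Finset.sum_le_sum
        intro t ht
        rw [Finset.mem_Ioc] at ht
        exact partB_one k m M t ht.1 ht.2 hM hdw hn
    _ ≤ _ := h4

/-- the two favourable events give success -/
theorem success (k m b M : ℕ) (hkn : k < n) (σ : Ordering n)
    (hb : k * n + k * (unsat k (bought (cheap n k m b) σ m)).card < 2 * b)
    (hl : late k m M σ) (v : Fin n) : k ≤ deg (bought (cheap n k m b) σ (tau k σ)) v := by
  obtain ⟨t, ht, ⟨hg1, hg2⟩, hR⟩ := hl
  rw [Finset.mem_Ioc] at ht
  have hex : ∃ v, deg (mid σ m (t-1)) v < k := by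
    have := hg2 (t-1) (by omega)
    push Not at this
    exact this
  have hne : ({t : ℕ | ∀ v, k ≤ deg (shown σ t) v}).Nonempty := by
    refine ⟨n.choose 2, ?_⟩
    intro w
    rw [shown_top, deg_univ]
    omega
  have htau := Nat.sInf_mem hne
  have hle : t ≤ tau k σ := by
    by_contra hlt
    push Not at hlt
    have h1 : k ≤ deg (shown σ (tau k σ)) hex.choose := htau hex.choose
    have h2 : deg (shown σ (tau k σ)) hex.choose ≤ deg (mid σ m (t-1)) hex.choose := by
      unfold deg
      apply Finset.card_le_card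
      intro e he
      rw [Finset.mem_filter] at he ⊢
      refine ⟨?_, he.2⟩
      rw [mem_mid]
      have h3 := mem_shown.1 he.1
      refine ⟨?_, by omega⟩
      by_contra hlt'
      push Not at hlt'
      apply hR (σ.symm e) hlt'
      rw [Equiv.apply_symm_apply]
      exact ⟨hex, he.2⟩
    have h3 := hex.choose_spec
    omega
  have h4 := catch_up k m b σ hb (tau k σ) (by omega) v
  have h5 : deg (mid σ m t) v ≤ deg (mid σ m (tau k σ)) v := by
    apply deg_mono
    intro e he
    rw [mem_mid] at he ⊢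
    omega
  have h6 := hg1 v
  omega

end Pool.Agent.X145.BB
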