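import Pool.Agent.X145.BB.Num

/-! The random nearest neighbour graph: a lower bound for its number of edges. -/

set_option autoImplicit false
set_option linter.unusedSectionVars false

namespace Pool.Agent.X145.BB

open Finset Filter Topology

/-- number of the edges at `v` that come before `e` -/
def rk {n : ℕ} (σ : Ordering n) (v : Fin n) (e : Edge n) : ℕ :=
  (univ.filter (fun f : Edge n => v ∈ f.1 ∧ σ.symm f < σ.symm e)).card

/-- The `k`-nearest neighbour graph: the edges that are among the first `k` edges at one of their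
ends. -/
def nearest {n : ℕ} (k : ℕ) (σ : Ordering n) : Finset (Edge n) :=
  univ.filter (fun e => ∃ v ∈ e.1, rk σ v e < k)

/-- `o` is a constant `o_k`: with probability tending to `1`, the `k`-nearest neighbour graph of a
uniformly random ordering has `o n + O(√n log n)` edges. -/
def IsNearestConstant (k : ℕ) (o : ℝ) : Prop :=
  ∃ C : ℝ, Tendsto (fun n : ℕ => prob n (fun σ =>
    |((nearest k σ).card : ℝ) - o * n| ≤ C * (Real.sqrt n * Real.log n))) atTop (𝓝 1)

section rank
variable {E : Type*} [DecidableEq E]

/-- ranks in a finite set -/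
theorem card_rank_lt (A : Finset E) (pos : E → ℕ) (hpos : Function.Injective pos) (k : ℕ) :
    (A.filter (fun e => (A.filter (fun f => pos f < pos e)).card < k)).card = min k A.card := by
  set r : E → ℕ := fun e => (A.filter (fun f => pos f < pos e)).card with hr
  have hlt : ∀ e ∈ A, r e < A.card := by
    intro e he
    apply Finset.card_lt_card
    refine ⟨Finset.filter_subset _ _, ?_⟩
    intro h
    have := (Finset.mem_filter.1 (h he)).2
    omega
  have hmono : ∀ e ∈ A, ∀ f ∈ A, pos e < pos f → r e < r f := by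
    intro e he f hf hef
    apply Finset.card_lt_card
    refine ⟨?_, ?_⟩
    · intro g hg
      rw [Finset.mem_filter] at hg ⊢
      exact ⟨hg.1, hg.2.trans hef⟩
    · intro h
      have := (Finset.mem_filter.1 (h (Finset.mem_filter.2 ⟨he, hef⟩))).2
      omega
  have hinj : Set.InjOn r A := by
    intro e he f hf hef
    by_contra hne
    have hne' : pos e ≠ pos f := fun h => hne (hpos h)
    rcases lt_or_gt_of_ne hne' with h | h
    · have := hmono e he f hf h; omega
    · have := hmono f hf e he h; omega
  have himg : A.image r = Finset.range A.card := by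
    apply Finset.eq_of_subset_of_card_le
    · intro x hx
      obtain ⟨e, he, rfl⟩ := Finset.mem_image.1 hx
      exact Finset.mem_range.2 (hlt e he)
    · rw [Finset.card_image_of_injOn hinj, Finset.card_range]
  have h2 : (A.filter (fun e => r e < k)).image r = Finset.range (min k A.card) := by
    ext x
    rw [Finset.mem_image, Finset.mem_range]
    constructor
    · rintro ⟨e, he, rfl⟩
      rw [Finset.mem_filter] at he
      exact lt_min he.2 (hlt e he.1)
    · intro hx
      have hx2 : x ∈ A.image r := by
        rw [himg, Finset.mem_range]; omega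
      obtain ⟨e, he, rfl⟩ := Finset.mem_image.1 hx2
      exact ⟨e, Finset.mem_filter.2 ⟨he, by omega⟩, rfl⟩
  rw [← Finset.card_image_of_injOn (f := r), h2, Finset.card_range]
  exact hinj.mono (fun e he => (Finset.mem_filter.1 he).1)

end rank

section
variable {n : ℕ}

/-- star of `v` -/
def star (v : Fin n) : Finset (Edge n) := univ.filter (fun f => v ∈ f.1)

theorem star_card (v : Fin n) : (star v).card = n - 1 := deg_univ v

theorem rk_eq (σ : Ordering n) (v : Fin n) (e : Edge n) :
    rk σ v e = ((star v).filter (fun f => (σ.symm f : ℕ) < (σ.symm e : ℕ))).card := by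
  unfold rk star
  rw [Finset.filter_filter]
  rfl

theorem pos_inj (σ : Ordering n) : Function.Injective (fun e : Edge n => ((σ.symm e : Fin (n.choose 2)) : ℕ)) :=
  fun _ _ h => σ.symm.injective (Fin.ext h)

theorem first_edges (k : ℕ) (σ : Ordering n) (v : Fin n) :
    ((star v).filter (fun e => rk σ v e < k)).card = min k (n - 1) := by
  have := card_rank_lt (star v) (fun e : Edge n => ((σ.symm e : Fin (n.choose 2)) : ℕ)) (pos_inj σ) k
  rw [star_card] at this
  rw [← this]
  congr 1
  apply Finset.filter_congr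
  intro e _
  rw [rk_eq]

/-- edges that are among the first `k` at both ends -/
def both (k : ℕ) (σ : Ordering n) : Finset (Edge n) :=
  univ.filter (fun e => ∀ v ∈ e.1, rk σ v e < k)

theorem sum_first (k : ℕ) (σ : Ordering n) :
    ∑ v : Fin n, ((star v).filter (fun e => rk σ v e < k)).card
      = ∑ e : Edge n, (univ.filter (fun v : Fin n => v ∈ e.1 ∧ rk σ v e < k)).card := by
  simp_rw [star, Finset.filter_filter, Finset.card_filter]
  rw [Finset.sum_comm]

theorem nearest_ge (k : ℕ) (hk : k < n) (σ : Ordering n) :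
    k * n ≤ (nearest k σ).card + (both k σ).card := by
  have h1 := sum_first k σ
  have h2 : ∑ v : Fin n, ((star v).filter (fun e => rk σ v e < k)).card = k * n := by
    rw [Finset.sum_congr rfl (fun v _ => first_edges k σ v), Finset.sum_const, Finset.card_univ,
      Fintype.card_fin, smul_eq_mul, min_eq_left (by omega), mul_comm]
  rw [← h2, h1, nearest, both, Finset.card_filter, Finset.card_filter, ← Finset.sum_add_distrib]
  apply Finset.sum_le_sum
  intro e _
  have hv := card_verts e
  have hsub : (univ.filter (fun v : Fin n => v ∈ e.1 ∧ rk σ v e < k))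
      ⊆ univ.filter (fun v : Fin n => v ∈ e.1) := by
    intro v hv
    exact Finset.mem_filter.2 ⟨Finset.mem_univ _, (Finset.mem_filter.1 hv).2.1⟩
  by_cases h3 : ∀ v ∈ e.1, rk σ v e < k
  · have h4 : ∃ v ∈ e.1, rk σ v e < k := by
      have : (univ.filter (fun v : Fin n => v ∈ e.1)).Nonempty := by
        rw [← Finset.card_pos, hv]; norm_num
      obtain ⟨v, hv'⟩ := this
      exact ⟨v, (Finset.mem_filter.1 hv').2, h3 v (Finset.mem_filter.1 hv').2⟩
    rw [if_pos h3, if_pos h4]
    have := Finset.card_le_card hsub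
    omega
  · rw [if_neg h3]
    by_cases h4 : ∃ v ∈ e.1, rk σ v e < k
    · rw [if_pos h4]
      have hss : (univ.filter (fun v : Fin n => v ∈ e.1 ∧ rk σ v e < k))
          ⊂ univ.filter (fun v : Fin n => v ∈ e.1) := by
        refine ⟨hsub, ?_⟩
        intro h
        apply h3
        intro v hv'
        exact (Finset.mem_filter.1 (h (Finset.mem_filter.2 ⟨Finset.mem_univ _, hv'⟩))).2.2
      have := Finset.card_lt_card hss
      omega
    · rw [if_neg h4]
      have : (univ.filter (fun v : Fin n => v ∈ e.1 ∧ rk σ v e < k)) = ∅ := by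
        apply Finset.filter_eq_empty_iff.2
        intro v _ hv'
        exact h4 ⟨v, hv'.1, hv'.2⟩
      rw [this]; simp

theorem nearest_le (k : ℕ) (σ : Ordering n) : (nearest k σ).card ≤ k * n := by
  have h1 := sum_first k σ
  have h2 : ∑ v : Fin n, ((star v).filter (fun e => rk σ v e < k)).card ≤ k * n := by
    rw [Finset.sum_congr rfl (fun v _ => first_edges k σ v), Finset.sum_const, Finset.card_univ,
      Fintype.card_fin, smul_eq_mul, mul_comm]
    exact Nat.mul_le_mul_right _ (min_le_left _ _)
  refine le_trans ?_ (h1 ▸ h2)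
  rw [nearest, Finset.card_filter]
  apply Finset.sum_le_sum
  intro e _
  split_ifs with h
  · obtain ⟨v, hv⟩ := h
    exact Finset.card_pos.2 ⟨v, Finset.mem_filter.2 ⟨Finset.mem_univ _, hv⟩⟩
  · exact Nat.zero_le _

/-- the edges touching `e` -/
def around (e : Edge n) : Finset (Edge n) := univ.filter (fun f => ∃ v ∈ e.1, v ∈ f.1)

theorem around_card (e : Edge n) : (around e).card = 2 * n - 3 := by
  obtain ⟨e, he⟩ := e
  induction e with
  | _ x y =>
    have hxy : x ≠ y := by simpa using he
    have h1 : around ⟨s(x, y), he⟩ = star x ∪ star y := by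
      ext f
      simp [around, star]
    have h2 : star x ∩ star y = {⟨s(x, y), he⟩} := by
      ext f
      rw [Finset.mem_inter, Finset.mem_singleton, star, star, Finset.mem_filter, Finset.mem_filter]
      constructor
      · rintro ⟨⟨_, h3⟩, ⟨_, h4⟩⟩
        apply Subtype.ext
        exact (Sym2.mem_and_mem_iff hxy).1 ⟨h3, h4⟩
      · rintro rfl
        simp
    have h3 := Finset.card_union_add_card_inter (star x) (star y)
    rw [h2, star_card, star_card, Finset.card_singleton] at h3
    rw [h1]
    have hn : 2 ≤ n := by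
      by_contra hlt
      push Not at hlt
      apply hxy
      apply Fin.ext
      have := x.2
      have := y.2
      omega
    omega

/-- rank in the neighbourhood of `e` -/
def rka (σ : Ordering n) (e f : Edge n) : ℕ :=
  ((around e).filter (fun g => ((σ.symm g : Fin (n.choose 2)) : ℕ) < (σ.symm f : Fin (n.choose 2)))).card

theorem mutual_rank (k : ℕ) (hk : 1 ≤ k) (σ : Ordering n) (e : Edge n) (h : ∀ v ∈ e.1, rk σ v e < k) :
    rka σ e e < 2 * k - 1 := by
  obtain ⟨e, he⟩ := e
  induction e with
  | _ x y =>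
    have hx := h x (by simp)
    have hy := h y (by simp)
    have : rka σ ⟨s(x,y), he⟩ ⟨s(x,y), he⟩ ≤ rk σ x ⟨s(x,y), he⟩ + rk σ y ⟨s(x,y), he⟩ := by
      unfold rka rk
      rw [← Finset.card_union_add_card_inter]
      refine le_trans (Finset.card_le_card ?_) (Nat.le_add_right _ _)
      intro g hg
      rw [Finset.mem_filter] at hg
      obtain ⟨hg1, hg2⟩ := hg
      unfold around at hg1
      rw [Finset.mem_filter] at hg1
      obtain ⟨_, v, hv1, hv2⟩ := hg1
      rw [Finset.mem_union, Finset.mem_filter, Finset.mem_filter]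
      have hv' : v = x ∨ v = y := by simpa using hv1
      rcases hv' with rfl | rfl
      · left; exact ⟨Finset.mem_univ _, hv2, hg2⟩
      · right; exact ⟨Finset.mem_univ _, hv2, hg2⟩
    omega

/-- exchanging two edges -/
def swV (e f : Edge n) : Ordering n ≃ Ordering n where
  toFun σ := σ.trans (Equiv.swap e f)
  invFun σ := σ.trans (Equiv.swap e f)
  left_inv σ := by ext i; simp
  right_inv σ := by ext i; simp

theorem rka_swV (σ : Ordering n) (e f : Edge n) (hf : f ∈ around e) (he : e ∈ around e) :
    rka (swV e f σ) e f = rka σ e e := by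
  unfold rka
  apply Finset.card_bij (fun g _ => Equiv.swap e f g)
  · intro g hg
    rw [Finset.mem_filter] at hg ⊢
    refine ⟨?_, ?_⟩
    · by_cases h1 : g = e
      · rw [h1, Equiv.swap_apply_left]; exact hf
      · by_cases h2 : g = f
        · rw [h2, Equiv.swap_apply_right]; exact he
        · rw [Equiv.swap_apply_of_ne_of_ne h1 h2]; exact hg.1
    · have h3 := hg.2
      simpa [swV] using h3
  · intro g _ g' _ h
    exact (Equiv.swap e f).injective h
  · intro g hg
    refine ⟨Equiv.swap e f g, ?_, by simp⟩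
    rw [Finset.mem_filter] at hg ⊢
    refine ⟨?_, ?_⟩
    · by_cases h1 : g = e
      · rw [h1, Equiv.swap_apply_left]; exact hf
      · by_cases h2 : g = f
        · rw [h2, Equiv.swap_apply_right]; exact he
        · rw [Equiv.swap_apply_of_ne_of_ne h1 h2]; exact hg.1
    · have h3 := hg.2
      simpa [swV] using h3

theorem self_around (e : Edge n) : e ∈ around e := by
  unfold around
  rw [Finset.mem_filter]
  have : (univ.filter (fun v : Fin n => v ∈ e.1)).Nonempty := by
    rw [← Finset.card_pos, card_verts e]; norm_num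
  obtain ⟨v, hv⟩ := this
  exact ⟨Finset.mem_univ _, v, (Finset.mem_filter.1 hv).2, (Finset.mem_filter.1 hv).2⟩

theorem cnt_rank (e : Edge n) (j : ℕ) :
    ((around e).card : ℝ) * cnt (fun σ : Ordering n => rka σ e e < j)
      ≤ j * Fintype.card (Ordering n) := by
  classical
  have h1 : ∀ f ∈ around e, cnt (fun σ : Ordering n => rka σ e f < j)
      = cnt (fun σ : Ordering n => rka σ e e < j) := by
    intro f hf
    unfold cnt
    rw [← Equiv.sum_comp (swV e f)]
    apply Finset.sum_congr rfl
    intro σ _
    have := rka_swV σ e f hf (self_around e)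
    simp only [this]
    split_ifs <;> rfl
  calc ((around e).card : ℝ) * cnt (fun σ : Ordering n => rka σ e e < j)
      = ∑ f ∈ around e, cnt (fun σ : Ordering n => rka σ e f < j) := by
        rw [Finset.sum_congr rfl h1, Finset.sum_const, nsmul_eq_mul]
    _ = ∑ σ : Ordering n, (((around e).filter (fun f => rka σ e f < j)).card : ℝ) := by
        unfold cnt
        rw [Finset.sum_comm]
        apply Finset.sum_congr rfl
        intro σ _
        rw [Finset.card_filter]
        push_cast
        apply Finset.sum_congr rfl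
        intro f _
        split_ifs <;> rfl
    _ ≤ ∑ _σ : Ordering n, (j:ℝ) := by
        apply Finset.sum_le_sum
        intro σ _
        have := card_rank_lt (around e) (fun e : Edge n => ((σ.symm e : Fin (n.choose 2)) : ℕ)) (pos_inj σ) j
        have h2 : ((around e).filter (fun f => rka σ e f < j)).card ≤ j := by
          unfold rka
          rw [this]
          exact min_le_left _ _
        exact_mod_cast h2
    _ = _ := by simp [mul_comm]

/-- expected number of mutual edges -/
theorem sum_mutual (k : ℕ) (hk : 1 ≤ k) (hn : 2 ≤ n) :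
    ∑ σ : Ordering n, ((both k σ).card : ℝ)
      ≤ (n:ℝ) * (n - 1) / 2 * ((2 * k - 1) / (2 * n - 3)) * Fintype.card (Ordering n) := by
  classical
  have hnR : (2:ℝ) ≤ n := by exact_mod_cast hn
  have hkR : (1:ℝ) ≤ k := by exact_mod_cast hk
  have h1 : ∑ σ : Ordering n, ((both k σ).card : ℝ)
      = ∑ e : Edge n, cnt (fun σ : Ordering n => ∀ v ∈ e.1, rk σ v e < k) := by
    unfold cnt
    rw [Finset.sum_comm]
    apply Finset.sum_congr rfl
    intro σ _
    rw [both, Finset.card_filter]
    push_cast
    apply Finset.sum_congr rfl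
    intro f _
    split_ifs <;> rfl
  rw [h1]
  have h2 : ∀ e : Edge n, cnt (fun σ : Ordering n => ∀ v ∈ e.1, rk σ v e < k)
      ≤ (2 * k - 1) / (2 * n - 3) * Fintype.card (Ordering n) := by
    intro e
    have h3 := cnt_rank e (2 * k - 1)
    rw [around_card, Nat.cast_sub (by omega), Nat.cast_sub (by omega)] at h3
    push_cast at h3
    have h4 : cnt (fun σ : Ordering n => ∀ v ∈ e.1, rk σ v e < k)
        ≤ cnt (fun σ : Ordering n => rka σ e e < 2 * k - 1) :=
      cnt_mono (fun σ h => mutual_rank k hk σ e h)
    refine h4.trans ?_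
    rw [div_mul_eq_mul_div, le_div_iff₀ (by linarith)]
    linarith
  calc ∑ e : Edge n, cnt (fun σ : Ordering n => ∀ v ∈ e.1, rk σ v e < k)
      ≤ ∑ _e : Edge n, (2 * (k:ℝ) - 1) / (2 * n - 3) * Fintype.card (Ordering n) :=
        Finset.sum_le_sum (fun e _ => h2 e)
    _ = _ := by
      rw [Finset.sum_const, Finset.card_univ, card_ord, nsmul_eq_mul, choose_two_cast]
      ring

/-- expected number of edges of the nearest neighbour graph -/
theorem sum_nearest (k : ℕ) (hk : 1 ≤ k) (hn : 2 ≤ n) (hkn : k < n) :
    ((k:ℝ) * n - (n:ℝ) * (n - 1) / 2 * ((2 * k - 1) / (2 * n - 3))) * Fintype.card (Ordering n)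
      ≤ ∑ σ : Ordering n, ((nearest k σ).card : ℝ) := by
  have h1 := sum_mutual (n := n) k hk hn
  have h2 : (k:ℝ) * n * Fintype.card (Ordering n)
      ≤ ∑ σ : Ordering n, (((nearest k σ).card : ℝ) + (both k σ).card) := by
    calc (k:ℝ) * n * Fintype.card (Ordering n) = ∑ _σ : Ordering n, (k:ℝ) * n := by simp [mul_comm]
      _ ≤ _ := by
        apply Finset.sum_le_sum
        intro σ _
        exact_mod_cast nearest_ge k hkn σ
  rw [Finset.sum_add_distrib] at h2
  linarith

/-- the inequality at one `n` -/
theorem mean_bound (k : ℕ) (hk : 1 ≤ k) (hn : 2 ≤ n) (hkn : k < n) (o R : ℝ) :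
    (k:ℝ) * n - (n:ℝ) * (n - 1) / 2 * ((2 * k - 1) / (2 * n - 3))
      ≤ prob n (fun σ => |((nearest k σ).card : ℝ) - o * n| ≤ R) * (o * n + R)
        + (1 - prob n (fun σ => |((nearest k σ).card : ℝ) - o * n| ≤ R)) * (k * n) := by
  classical
  set A : Ordering n → Prop := fun σ => |((nearest k σ).card : ℝ) - o * n| ≤ R with hA
  have hc := ord_pos n
  have h1 := sum_nearest (n := n) k hk hn hkn
  have h2 : ∑ σ : Ordering n, ((nearest k σ).card : ℝ)
      ≤ cnt A * (o * n + R) + (Fintype.card (Ordering n) - cnt A) * (k * n) := by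
    have h3 : ∑ σ : Ordering n, ((nearest k σ).card : ℝ)
        ≤ ∑ σ : Ordering n, ((if A σ then (1:ℝ) else 0) * (o * n + R)
          + (1 - (if A σ then (1:ℝ) else 0)) * (k * n)) := by
      apply Finset.sum_le_sum
      intro σ _
      by_cases h : A σ
      · rw [if_pos h]
        have := (abs_le.1 h).2
        linarith
      · rw [if_neg h]
        have : ((nearest k σ).card : ℝ) ≤ k * n := by exact_mod_cast nearest_le k σ
        linarith
    refine h3.trans (le_of_eq ?_)
    rw [Finset.sum_add_distrib, ← Finset.sum_mul, ← Finset.sum_mul, Finset.sum_sub_distrib]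
    unfold cnt
    simp
  rw [prob_eq]
  have h4 := h1.trans h2
  rw [← mul_le_mul_iff_left₀ hc]
  refine h4.trans (le_of_eq ?_)
  field_simp

end

/-- `o_k ≥ k/2 + 1/4`. -/
theorem constant_ge (k : ℕ) (hk : 1 ≤ k) (o : ℝ) (ho : IsNearestConstant k o) :
    (k:ℝ) / 2 + 1 / 4 ≤ o := by
  obtain ⟨C, hC⟩ := ho
  have hL : Tendsto (fun n : ℕ => (k:ℝ) - (2 * k - 1) / 2 * (((n:ℝ) - 1) / (2 * n - 3))) atTop
      (𝓝 ((k:ℝ) - (2 * k - 1) / 2 * (1 / 2))) := by
    apply Tendsto.sub tendsto_const_nhds
    apply Tendsto.const_mul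
    have h1 : Tendsto (fun n : ℕ => (1:ℝ) / n) atTop (𝓝 0) := tendsto_one_div_atTop_nhds_zero_nat
    have h2 : Tendsto (fun n : ℕ => (1 - (1:ℝ) / n) / (2 - 3 * (1 / n))) atTop (𝓝 ((1 - 0) / (2 - 3 * 0))) := by
      apply Tendsto.div
      · exact tendsto_const_nhds.sub h1
      · exact tendsto_const_nhds.sub (h1.const_mul 3)
      · norm_num
    have h3 : ((1:ℝ) - 0) / (2 - 3 * 0) = 1 / 2 := by norm_num
    rw [h3] at h2
    apply h2.congr'
    filter_upwards [eventually_gt_atTop 0] with n hn
    have : (0:ℝ) < n := by exact_mod_cast hn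
    rw [show (1 - (1:ℝ) / n) = ((n:ℝ) - 1) / n by field_simp,
      show (2 - 3 * ((1:ℝ) / n)) = (2 * (n:ℝ) - 3) / n by field_simp]
    rw [div_div_div_cancel_right₀ this.ne']
  have hlog : Tendsto (fun n : ℕ => Real.sqrt n * Real.log n / n) atTop (𝓝 0) := by
    have h1 : Tendsto (fun x : ℝ => Real.log x / x ^ (1/2:ℝ)) atTop (𝓝 0) :=
      (isLittleO_log_rpow_atTop (by norm_num : (0:ℝ) < 1/2)).tendsto_div_nhds_zero
    have h2 := h1.comp tendsto_natCast_atTop_atTop
    apply h2.congr'
    filter_upwards [eventually_gt_atTop 0] with n hn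
    have hn0 : (0:ℝ) < n := by exact_mod_cast hn
    simp only [Function.comp]
    rw [← Real.sqrt_eq_rpow]
    have hs : Real.sqrt n * Real.sqrt n = n := Real.mul_self_sqrt hn0.le
    have hs0 : 0 < Real.sqrt n := Real.sqrt_pos.2 hn0
    rw [div_eq_div_iff hs0.ne' hn0.ne',
      show Real.sqrt n * Real.log n * Real.sqrt n = (Real.sqrt n * Real.sqrt n) * Real.log n by ring, hs]
    ring
  set P : ℕ → ℝ := fun n => prob n (fun σ =>
    |((nearest k σ).card : ℝ) - o * n| ≤ C * (Real.sqrt n * Real.log n)) with hP
  have hR : Tendsto (fun n : ℕ => P n * (o + C * (Real.sqrt n * Real.log n / n)) + (1 - P n) * k)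
      atTop (𝓝 (1 * (o + C * 0) + (1 - 1) * k)) := by
    apply Tendsto.add
    · apply Tendsto.mul hC
      exact tendsto_const_nhds.add (hlog.const_mul C)
    · apply Tendsto.mul_const
      exact tendsto_const_nhds.sub hC
  have hle : ∀ᶠ n : ℕ in atTop, (k:ℝ) - (2 * k - 1) / 2 * (((n:ℝ) - 1) / (2 * n - 3))
      ≤ P n * (o + C * (Real.sqrt n * Real.log n / n)) + (1 - P n) * k := by
    filter_upwards [eventually_ge_atTop 2, eventually_gt_atTop k] with n hn hkn
    have h1 := mean_bound (n := n) k hk hn hkn o (C * (Real.sqrt n * Real.log n))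
    have hn0 : (0:ℝ) < n := by
      have : (2:ℝ) ≤ n := by exact_mod_cast hn
      linarith
    rw [← mul_le_mul_iff_left₀ hn0]
    have e1 : ((k:ℝ) - (2 * k - 1) / 2 * (((n:ℝ) - 1) / (2 * n - 3))) * n
        = (k:ℝ) * n - (n:ℝ) * (n - 1) / 2 * ((2 * k - 1) / (2 * n - 3)) := by ring
    have e2 : (P n * (o + C * (Real.sqrt n * Real.log n / n)) + (1 - P n) * k) * n
        = P n * (o * n + C * (Real.sqrt n * Real.log n)) + (1 - P n) * (k * n) := by
      field_simp
    rw [e1, e2]
    exact h1
  have := le_of_tendsto_of_tendsto hL hR hle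
  linarith

end Pool.Agent.X145.BB
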