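import Pool.Agent.X145.BB.Late

/-! Choice of the parameters. -/

set_option autoImplicit false
set_option linter.unusedSectionVars false

namespace Pool.Agent.X145.BB

open Finset Filter Topology

theorem prob_eq (n : ℕ) (A : Ordering n → Prop) : prob n A = cnt A / Fintype.card (Ordering n) := by
  unfold prob
  rw [← cnt_eq A, Nat.card_eq_fintype_card]

theorem choose_two_cast (n : ℕ) : ((n.choose 2 : ℕ) : ℝ) = n * (n - 1) / 2 := Nat.cast_choose_two ℝ n

theorem one_sub_ge (x : ℝ) (h0 : 0 ≤ x) (h1 : x ≤ 1/2) : Real.exp (-(2 * x)) ≤ 1 - x := by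
  rw [Real.exp_neg, inv_le_iff_one_le_mul₀ (Real.exp_pos _)]
  have h2 := Real.add_one_le_exp (2 * x)
  have h3 : 0 ≤ 1 - x := by linarith
  nlinarith [mul_le_mul_of_nonneg_left h2 h3]

/-- all estimates together, at one `n` -/
theorem at_n (k C q b n : ℕ) (hk : 1 ≤ k) (hq : 1 ≤ q) (c : ℝ)
    (hn1 : 16 ≤ n) (hn2 : 8 * C + 1 ≤ n) (hn3 : 4 * q ^ 2 * (C + 1) ≤ n) (hn4 : 2 * k ≤ n)
    (hC : (2:ℝ) ^ k * (1 - 1 / (4 * (q:ℝ)^2) / 2) ^ C ≤ 1 / 2)
    (hb : ∀ u : ℕ, q * u < n → k * n + k * u < 2 * b)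
    (hv : (n:ℝ) * (2 ^ k * Real.exp (-((n:ℝ) / 32))) ≤ 1 / 2)
    (hc : c + (1/2:ℝ) ^ n ≤ Real.exp (-(16 * C)) / 2) :
    c ≤ prob n (fun σ => ∀ v, k ≤ deg (bought (cheap n k (C * n) b) σ (tau k σ)) v) := by
  have hnR : (16:ℝ) ≤ n := by exact_mod_cast hn1
  have hn2R : 8 * (C:ℝ) + 1 ≤ n := by exact_mod_cast hn2
  have hn3R : 4 * (q:ℝ)^2 * (C + 1) ≤ n := by exact_mod_cast hn3
  have hn4R : 2 * (k:ℝ) ≤ n := by exact_mod_cast hn4
  have hqR : (1:ℝ) ≤ q := by exact_mod_cast hq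
  have hNR := choose_two_cast n
  set N := n.choose 2 with hNdef
  set m := C * n with hmdef
  have hmR : (m:ℝ) = C * n := by rw [hmdef]; push_cast; ring
  have hm4 : 4 * (m:ℝ) ≤ N := by
    rw [hmR, hNR]
    nlinarith
  have hm4N : 4 * m ≤ N := by exact_mod_cast hm4
  have hNpos : 0 < N := by
    have : (0:ℝ) < N := by rw [hNR]; nlinarith
    exact_mod_cast this
  set T := N / 2 with hTdef
  have hMN : m + T < N := by omega
  have hT1 : (N:ℝ) / 2 - 1 ≤ T := by
    have : N ≤ 2 * T + 1 := by omega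
    have : (N:ℝ) ≤ 2 * T + 1 := by exact_mod_cast this
    linarith
  have hwd : (N:ℝ) / 4 ≤ N - (m + T : ℕ) := by
    have : N ≤ 4 * N - 4 * (m + T) := by omega
    have h2 : N + 4 * (m + T) ≤ 4 * N := by omega
    have : (N:ℝ) + 4 * (m + T : ℕ) ≤ 4 * N := by exact_mod_cast h2
    linarith
  -- part A
  have hA := partA (n := n) k m b q (by omega) (by have := hb 0 (by omega); omega) (1 / (4 * (q:ℝ)^2))
    (by positivity)
    (by rw [div_le_one (by positivity)]; nlinarith)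
    (by
      intro u hu
      have huR : (n:ℝ) ≤ q * u := by exact_mod_cast hu
      have hq0 : (0:ℝ) < q := by linarith
      rw [← hNdef, choose_two_cast u, hNR, hmR]
      have h1 : (n:ℝ) / q ≤ u := by
        rw [div_le_iff₀ hq0]; linarith
      set x := (n:ℝ) / q with hx
      have hxn : (n:ℝ) = x * q := by rw [hx]; field_simp
      have hx1 : 4 * (q:ℝ) * (C+1) ≤ x := by
        rw [hx, le_div_iff₀ hq0]
        nlinarith
      have h3 : x * (x - 1) / 2 ≤ (u:ℝ) * (u - 1) / 2 := by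
        have : 4 ≤ x := by nlinarith [mul_nonneg (show (0:ℝ) ≤ q by linarith) (show (0:ℝ) ≤ (C:ℝ) by positivity)]
        nlinarith
      refine le_trans ?_ h3
      have h4 : 1 / (4 * (q:ℝ)^2) * ((n:ℝ) * (n - 1) / 2) ≤ x ^ 2 / 8 := by
        have : (n:ℝ) * (n - 1) / 2 ≤ n ^ 2 / 2 := by nlinarith
        calc 1 / (4 * (q:ℝ)^2) * ((n:ℝ) * (n - 1) / 2) ≤ 1 / (4 * (q:ℝ)^2) * (n ^ 2 / 2) :=
              mul_le_mul_of_nonneg_left this (by positivity)
          _ = x ^ 2 / 8 := by rw [hx]; field_simp; ring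
      have h5 : (C:ℝ) * n ≤ x ^ 2 / 4 := by
        rw [hxn]
        have hC0 : (0:ℝ) ≤ C := by positivity
        have : (C:ℝ) * q ≤ x / 4 := by nlinarith
        have hx0 : 0 ≤ x := by nlinarith [mul_nonneg hq0.le hC0]
        nlinarith
      have h6 : 4 ≤ x := by nlinarith [mul_nonneg (show (0:ℝ) ≤ q by linarith) (show (0:ℝ) ≤ (C:ℝ) by positivity)]
      nlinarith)
  have hA' : cnt (fun σ : Ordering n => n ≤ q * (unsat k (bought (cheap n k m b) σ m)).card)
      ≤ (1/2:ℝ) ^ n * (Fintype.card (Ordering n) : ℝ) := by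
    refine hA.trans (mul_le_mul_of_nonneg_right ?_ (ord_pos n).le)
    calc (2:ℝ) ^ (k * n) * (1 - 1 / (4 * (q:ℝ)^2) / 2) ^ m
        = ((2:ℝ) ^ k * (1 - 1 / (4 * (q:ℝ)^2) / 2) ^ C) ^ n := by
          rw [hmdef, pow_mul, pow_mul, mul_pow]
      _ ≤ (1/2) ^ n := by
          apply pow_le_pow_left₀ _ hC
          have : 0 ≤ 1 - 1 / (4 * (q:ℝ)^2) / 2 := by
            have : 1 / (4 * (q:ℝ)^2) ≤ 1 := by
              rw [div_le_one (by positivity)]; nlinarith
            linarith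
          positivity
  -- part C
  have hCv : ∀ v : Fin n, cnt (fun σ : Ordering n => deg (mid σ m (m + T)) v < k)
      ≤ 2 ^ k * Real.exp (-((n:ℝ) / 32)) * (Fintype.card (Ordering n) : ℝ) := by
    intro v
    have h1 := partC (n := n) k m T (by omega) (by omega) v (1 / (n:ℝ)) (by positivity)
      (by rw [div_le_one (by linarith)]; linarith)
      (by
        rw [← hNdef, hNR]
        have : 1 / (n:ℝ) * (n * (n - 1) / 2) = (n - 1) / 2 := by field_simp
        rw [this]; linarith)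
    refine h1.trans (mul_le_mul_of_nonneg_right ?_ (ord_pos n).le)
    apply mul_le_mul_of_nonneg_left _ (by positivity)
    have h2 : 1 - 1 / (n:ℝ) / 2 ≤ Real.exp (-(1 / (n:ℝ) / 2)) := by
      have := Real.add_one_le_exp (-(1 / (n:ℝ) / 2))
      linarith
    have h3 : 0 ≤ 1 - 1 / (n:ℝ) / 2 := by
      have : 1 / (n:ℝ) ≤ 1 := by rw [div_le_one (by linarith)]; linarith
      linarith
    calc (1 - 1 / (n:ℝ) / 2) ^ T ≤ (Real.exp (-(1 / (n:ℝ) / 2))) ^ T := pow_le_pow_left₀ h3 h2 _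
      _ = Real.exp (-(T / (2 * n))) := by
          rw [← Real.exp_nat_mul]; congr 1; field_simp
      _ ≤ _ := by
          apply Real.exp_le_exp.2
          rw [neg_le_neg_iff, le_div_iff₀ (by linarith)]
          have : (N:ℝ) / 2 - 1 ≥ n ^ 2 / 16 := by
            rw [hNR]; nlinarith
          nlinarith
  have hsumv : ∑ v : Fin n, cnt (fun σ : Ordering n => deg (mid σ m (m + T)) v < k)
      ≤ (Fintype.card (Ordering n) : ℝ) / 2 := by
    calc ∑ v : Fin n, cnt (fun σ : Ordering n => deg (mid σ m (m + T)) v < k)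
        ≤ ∑ _v : Fin n, 2 ^ k * Real.exp (-((n:ℝ) / 32)) * (Fintype.card (Ordering n) : ℝ) :=
          Finset.sum_le_sum (fun v _ => hCv v)
      _ = ((n:ℝ) * (2 ^ k * Real.exp (-((n:ℝ) / 32)))) * (Fintype.card (Ordering n) : ℝ) := by
          rw [Finset.sum_const, Finset.card_univ, Fintype.card_fin, nsmul_eq_mul]; ring
      _ ≤ 1 / 2 * (Fintype.card (Ordering n) : ℝ) := mul_le_mul_of_nonneg_right hv (ord_pos n).le
      _ = _ := by ring
  -- part B
  have hdw : (n:ℝ) - 1 ≤ (N:ℝ) - (m + T : ℕ) := by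
    have : (n:ℝ) - 1 ≤ N / 4 := by rw [hNR]; nlinarith
    linarith
  have hB := partB (n := n) k m (m + T) hk (by omega) hMN hdw (by omega)
  have hx : ((n:ℝ) - 1) / ((N:ℝ) - (m + T : ℕ)) ≤ 8 / n := by
    have hw : (0:ℝ) < (N:ℝ) - (m + T : ℕ) := by linarith
    rw [div_le_div_iff₀ hw (by linarith)]
    have : (n:ℝ) * (n - 1) / 8 ≤ (N:ℝ) - (m + T : ℕ) := by
      have h2 : (N:ℝ) / 4 = (n:ℝ) * (n - 1) / 8 := by rw [hNR]; ring
      linarith
    nlinarith
  have h8n : 8 / (n:ℝ) ≤ 1/2 := by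
    rw [div_le_iff₀ (by linarith)]; linarith
  have hpow : Real.exp (-(16 * C)) ≤ (1 - ((n:ℝ) - 1) / ((N:ℝ) - (m + T : ℕ))) ^ m := by
    have h1 : Real.exp (-(2 * (8 / (n:ℝ)))) ≤ 1 - ((n:ℝ) - 1) / ((N:ℝ) - (m + T : ℕ)) := by
      have := one_sub_ge (8 / (n:ℝ)) (by positivity) h8n
      linarith
    calc Real.exp (-(16 * C)) = (Real.exp (-(2 * (8 / (n:ℝ))))) ^ m := by
          rw [← Real.exp_nat_mul, hmR]; congr 1; field_simp; ring
      _ ≤ _ := pow_le_pow_left₀ (Real.exp_pos _).le h1 _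
  have hlate : Real.exp (-(16 * C)) / 2 * (Fintype.card (Ordering n) : ℝ) ≤ cnt (late (n := n) k m (m + T)) := by
    refine le_trans ?_ hB
    have h1 : (Fintype.card (Ordering n) : ℝ) / 2 ≤ (Fintype.card (Ordering n) : ℝ)
        - ∑ v : Fin n, cnt (fun σ : Ordering n => deg (mid σ m (m + T)) v < k) := by linarith
    have h2 := mul_le_mul hpow h1 (by have := ord_pos n; linarith) ((Real.exp_pos _).le.trans hpow)
    linarith
  -- conclusion
  have hfin : cnt (late (n := n) k m (m + T))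
      ≤ cnt (fun σ : Ordering n => ∀ v, k ≤ deg (bought (cheap n k m b) σ (tau k σ)) v)
        + cnt (fun σ : Ordering n => n ≤ q * (unsat k (bought (cheap n k m b) σ m)).card) := by
    refine le_trans (cnt_mono ?_) (cnt_or _ _)
    intro σ hl
    by_cases h : n ≤ q * (unsat k (bought (cheap n k m b) σ m)).card
    · right; exact h
    · left
      push Not at h
      intro v
      exact success k m b (m + T) (by omega) σ (hb _ h) hl v
  rw [prob_eq, le_div_iff₀ (ord_pos n)]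
  have h9 := mul_le_mul_of_nonneg_right hc (ord_pos n).le
  linarith

/-- For every `δ > 0`, budgets `≤ (k/2 + δ) n` give success probability bounded below. -/
theorem cheap_strategies (k : ℕ) (hk : 1 ≤ k) (δ : ℝ) (hδ : 0 < δ) :
    ∃ c > 0, ∃ b : ℕ → ℕ, (∀ n, (b n : ℝ) ≤ ((k:ℝ) / 2 + δ) * n) ∧
      ∃ S : (n : ℕ) → Rule n, (∀ n σ t, (bought (S n) σ t).card ≤ b n) ∧
        ∀ᶠ n : ℕ in atTop, c ≤ prob n (fun σ => ∀ v, k ≤ deg (bought (S n) σ (tau k σ)) v) := by
  obtain ⟨q, hq⟩ := exists_nat_ge ((k:ℝ) / δ + 1)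
  have hq1 : 1 ≤ q := by
    have : (1:ℝ) ≤ q := by
      have : 0 ≤ (k:ℝ) / δ := by positivity
      linarith
    exact_mod_cast this
  have hqR : (1:ℝ) ≤ q := by exact_mod_cast hq1
  have hkq : (k:ℝ) ≤ δ * q := by
    have : (k:ℝ) / δ ≤ q := by linarith
    rw [div_le_iff₀ hδ] at this
    linarith
  have hr : |1 - 1 / (4 * (q:ℝ)^2) / 2| < 1 := by
    rw [abs_lt]
    have h1 : 0 < 1 / (4 * (q:ℝ)^2) := by positivity
    have h2 : 1 / (4 * (q:ℝ)^2) ≤ 1 := by
      rw [div_le_one (by positivity)]; nlinarith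
    constructor <;> linarith
  have hlim := (tendsto_pow_atTop_nhds_zero_of_abs_lt_one hr).const_mul ((2:ℝ)^k)
  rw [mul_zero] at hlim
  obtain ⟨C, hC⟩ := (hlim.eventually (ge_mem_nhds (show (0:ℝ) < 1/2 by norm_num))).exists
  set c0 := Real.exp (-(16 * (C:ℝ))) / 2 with hc0
  have hc0pos : 0 < c0 := by positivity
  refine ⟨c0 / 2, by positivity, fun n => ⌊((k:ℝ) / 2 + δ) * n⌋₊, ?_,
    fun n => cheap n k (C * n) ⌊((k:ℝ) / 2 + δ) * n⌋₊, ?_, ?_⟩
  · intro n
    exact Nat.floor_le (by positivity)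
  · intro n σ t
    exact cheap_card k (C * n) _ σ t
  · have e1 : ∀ᶠ n : ℕ in atTop, (1/2:ℝ) ^ n ≤ c0 / 2 :=
      (tendsto_pow_atTop_nhds_zero_of_lt_one (by norm_num) (by norm_num)).eventually
        (ge_mem_nhds (by positivity))
    have e2 : ∀ᶠ n : ℕ in atTop, (n:ℝ) * (2 ^ k * Real.exp (-((n:ℝ) / 32))) ≤ 1 / 2 := by
      have h1 := Real.tendsto_pow_mul_exp_neg_atTop_nhds_zero 1
      have h2 : Tendsto (fun n : ℕ => (n:ℝ) / 32) atTop atTop :=
        tendsto_natCast_atTop_atTop.atTop_div_const (by norm_num)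
      have h3 := (h1.comp h2).const_mul (32 * (2:ℝ) ^ k)
      rw [mul_zero] at h3
      have h4 : (fun n : ℕ => (n:ℝ) * (2 ^ k * Real.exp (-((n:ℝ) / 32))))
          = fun n : ℕ => (32 * (2:ℝ)^k) * ((fun x : ℝ => x ^ 1 * Real.exp (-x)) ∘ fun n : ℕ => (n:ℝ) / 32) n := by
        funext n
        simp only [Function.comp]
        ring
      rw [← h4] at h3
      exact h3.eventually (ge_mem_nhds (by norm_num))
    have e3 : ∀ᶠ n : ℕ in atTop, 2 / δ < (n:ℝ) := (tendsto_natCast_atTop_atTop).eventually_gt_atTop _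
    filter_upwards [e1, e2, e3, eventually_ge_atTop 16, eventually_ge_atTop (8 * C + 1),
      eventually_ge_atTop (4 * q ^ 2 * (C + 1)), eventually_ge_atTop (2 * k)] with n h1 h2 h3 h4 h5 h6 h7
    have hδn : 2 < δ * n := by
      rw [div_lt_iff₀ hδ] at h3
      linarith
    apply at_n k C q _ n hk hq1 (c0 / 2) h4 h5 h6 h7 hC _ h2 (by linarith)
    intro u hu
    have hfl := Nat.lt_floor_add_one (((k:ℝ) / 2 + δ) * n)
    have huR : (q:ℝ) * u < n := by exact_mod_cast hu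
    have hku : (k:ℝ) * u ≤ δ * n := by
      have h0 : (0:ℝ) ≤ u := by positivity
      calc (k:ℝ) * u ≤ δ * q * u := mul_le_mul_of_nonneg_right hkq h0
        _ = δ * (q * u) := by ring
        _ ≤ δ * n := mul_le_mul_of_nonneg_left huR.le hδ.le
    have : (k:ℝ) * n + k * u < 2 * (⌊((k:ℝ) / 2 + δ) * n⌋₊ : ℝ) := by nlinarith
    exact_mod_cast this

end Pool.Agent.X145.BB
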