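import Pool.Agent.X145.BB.Defs

/-! Probability estimates for the cheap rule. -/

set_option autoImplicit false
set_option linter.unusedSectionVars false

namespace Pool.Agent.X145.BB

open Finset Filter Topology

variable {n : ℕ}

theorem cnt_eq {Ω : Type*} [Fintype Ω] (A : Ω → Prop) : cnt A = (Nat.card {σ : Ω // A σ} : ℝ) := by
  classical
  unfold cnt
  rw [Nat.card_eq_fintype_card, Fintype.card_subtype, Finset.card_filter]
  push_cast
  apply Finset.sum_congr rfl
  intro σ _
  split_ifs <;> rfl

theorem cnt_mono {Ω : Type*} [Fintype Ω] {A B : Ω → Prop} (h : ∀ σ, A σ → B σ) : cnt A ≤ cnt B := by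
  classical
  unfold cnt
  apply Finset.sum_le_sum
  intro σ _
  by_cases ha : A σ
  · rw [if_pos ha, if_pos (h σ ha)]
  · rw [if_neg ha]; split_ifs <;> norm_num

theorem cnt_nonneg {Ω : Type*} [Fintype Ω] (A : Ω → Prop) : 0 ≤ cnt A := by
  classical
  unfold cnt
  apply Finset.sum_nonneg
  intro σ _
  split_ifs <;> norm_num

theorem cnt_le {Ω : Type*} [Fintype Ω] (A : Ω → Prop) : cnt A ≤ Fintype.card Ω := by
  classical
  unfold cnt
  calc ∑ σ : Ω, (if A σ then (1:ℝ) else 0) ≤ ∑ _σ : Ω, (1:ℝ) := by
        apply Finset.sum_le_sum; intro σ _; split_ifs <;> norm_num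
    _ = _ := by simp

theorem cnt_or {Ω : Type*} [Fintype Ω] (A B : Ω → Prop) :
    cnt (fun σ => A σ ∨ B σ) ≤ cnt A + cnt B := by
  classical
  unfold cnt
  rw [← Finset.sum_add_distrib]
  apply Finset.sum_le_sum
  intro σ _
  by_cases ha : A σ <;> by_cases hb : B σ <;> simp [ha, hb]

theorem card_ord (n : ℕ) : Fintype.card (Edge n) = n.choose 2 := by
  have := Sym2.card_subtype_not_diag (α := Fin n)
  rw [Fintype.card_fin] at this
  convert this

theorem ord_pos (n : ℕ) : (0:ℝ) < (Fintype.card (Ordering n) : ℝ) := by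
  have : Nonempty (Ordering n) := ⟨(Fintype.equivFinOfCardEq (card_ord n)).symm⟩
  exact_mod_cast Fintype.card_pos

theorem sw_symm_apply (p q : Fin (n.choose 2)) (σ : Ordering n) (e : Edge n) :
    (sw p q σ).symm e = Equiv.swap p q (σ.symm e) := by
  unfold sw
  simp [Equiv.symm_trans_apply]

/-- the bought set depends only on the positions before `t` -/
theorem bought_congr (S : Rule n) (σ σ' : Ordering n) (t : ℕ)
    (h : ∀ i : Fin (n.choose 2), (i : ℕ) < t → σ i = σ' i) : bought S σ t = bought S σ' t := by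
  induction t with
  | zero => rfl
  | succ t ih =>
    have ih' := ih (fun i hi => h i (by omega))
    unfold bought
    rw [ih']
    by_cases ht : t < n.choose 2
    · rw [dif_pos ht, dif_pos ht, h ⟨t, ht⟩ (by simp)]
    · rw [dif_neg ht, dif_neg ht]

theorem bought_inv (S : Rule n) (t : ℕ) :
    Inv (univ.filter (fun i : Fin (n.choose 2) => t ≤ (i:ℕ))) (fun σ : Ordering n => bought S σ t) := by
  intro σ p hp q hq
  apply bought_congr
  intro i hi
  have hp' := (Finset.mem_filter.1 hp).2
  have hq' := (Finset.mem_filter.1 hq).2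
  rw [sw_apply, Equiv.swap_apply_of_ne_of_ne]
  · rintro rfl; omega
  · rintro rfl; omega

/-- the number of edges inside a set of vertices -/
theorem edges_in (U : Finset (Fin n)) :
    (univ.filter (fun e : Edge n => ∀ v ∈ e.1, v ∈ U)).card = U.card.choose 2 := by
  classical
  rw [← Sym2.card_image_offDiag, ← Finset.card_image_of_injective _ Subtype.val_injective]
  congr 1
  ext e
  simp only [Finset.mem_image, Finset.mem_filter, Finset.mem_univ, true_and, Subtype.exists,
    exists_and_right, exists_eq_right, Finset.mem_offDiag, Prod.exists]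
  constructor
  · rintro ⟨he, h⟩
    induction e with
    | _ x y =>
      refine ⟨x, y, ⟨h x (by simp), h y (by simp), by simpa using he⟩, rfl⟩
  · rintro ⟨x, y, ⟨hx, hy, hxy⟩, rfl⟩
    refine ⟨by simpa using hxy, ?_⟩
    intro v hv
    have hv' : v = x ∨ v = y := by simpa using hv
    rcases hv' with rfl | rfl
    · exact hx
    · exact hy

theorem card_shown_le (σ : Ordering n) (t : ℕ) : (shown σ t).card ≤ t := by
  have : (shown σ t).card ≤ (Finset.range t).card := by
    apply Finset.card_le_card_of_injOn (fun e => (σ.symm e : ℕ))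
    · intro e he
      simpa using mem_shown.1 he
    · intro e _ e' _ h
      exact σ.symm.injective (Fin.ext h)
  simpa using this

theorem unsat_anti {k : ℕ} {F G : Finset (Edge n)} (h : F ⊆ G) : unsat k G ⊆ unsat k F := by
  intro v hv
  have := (Finset.mem_filter.1 hv).2
  exact Finset.mem_filter.2 ⟨Finset.mem_univ _, lt_of_le_of_lt (deg_mono h v) this⟩

/-- counting positions is counting edges -/
theorem card_positions (σ : Ordering n) (W : Fin (n.choose 2) → Prop) (Q : Edge n → Prop)
    [DecidablePred W] [DecidablePred Q] :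
    ((univ.filter W).filter (fun q => Q (σ q))).card
      = (univ.filter (fun e : Edge n => W (σ.symm e) ∧ Q e)).card := by
  rw [Finset.filter_filter]
  apply Finset.card_bij (fun q _ => σ q)
  · intro q hq
    have := (Finset.mem_filter.1 hq).2
    simp only [Finset.mem_filter, Finset.mem_univ, true_and, Equiv.symm_apply_apply]
    exact this
  · intro q _ q' _ h
    exact σ.injective h
  · intro e he
    have := (Finset.mem_filter.1 he).2
    exact ⟨σ.symm e, by simpa using this, by simp⟩

/-- Part A: after the first phase few vertices are unsaturated. -/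
theorem partA (k m b q : ℕ) (hm : m ≤ n.choose 2) (hb : k * n < 2 * b) (p : ℝ) (hp0 : 0 ≤ p) (hp1 : p ≤ 1)
    (hnum : ∀ u : ℕ, n ≤ q * u → p * (n.choose 2 : ℕ) + m ≤ (u.choose 2 : ℕ)) :
    cnt (fun σ => n ≤ q * (unsat k (bought (cheap n k m b) σ m)).card)
      ≤ 2 ^ (k * n) * (1 - p / 2) ^ m * (Fintype.card (Ordering n) : ℝ) := by
  classical
  rcases Nat.eq_zero_or_pos m with rfl | hm0
  · have h1 := cnt_le (fun σ : Ordering n => n ≤ q * (unsat k (bought (cheap n k 0 b) σ 0)).card)
    have h2 : (1:ℝ) ≤ 2 ^ (k * n) := one_le_pow₀ (by norm_num)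
    have h3 := ord_pos n
    rw [pow_zero, mul_one]
    nlinarith
  have hN : 0 < n.choose 2 := by omega
  set pos : ℕ → Fin (n.choose 2) := fun t => ⟨t % (n.choose 2), Nat.mod_lt _ hN⟩ with hpos
  have hposv : ∀ t (ht : t < m), pos t = ⟨t, by omega⟩ := by
    intro t ht
    simp only [hpos]
    exact Fin.ext (Nat.mod_eq_of_lt (by omega))
  refine cov (P := Fin (n.choose 2)) (E := Edge n) m
    (fun t => univ.filter (fun i : Fin (n.choose 2) => t ≤ (i:ℕ))) pos
    (by intro t ht; rw [hposv t ht]; simp)
    (fun t σ e => ∀ v ∈ e.1, v ∈ unsat k (bought (cheap n k m b) σ t))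
    (fun t σ => n ≤ q * (unsat k (bought (cheap n k m b) σ t)).card)
    (fun t σ => (bought (cheap n k m b) σ t).card)
    (by
      intro t ht σ a ha c hc
      have := bought_inv (cheap n k m b) t σ a ha c hc
      simp only at this
      simp only [this])
    (by
      intro t ht σ a ha c hc
      have := bought_inv (cheap n k m b) t σ a ha c hc
      simp only at this
      simp only [this])
    (by
      intro t ht σ a ha c hc
      have := bought_inv (cheap n k m b) t σ a ha c hc
      simp only at this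
      simp only [this])
    (by
      intro t ht σ _
      exact Finset.card_le_card (bought_mono _ _ (Nat.le_succ t)))
    (by
      intro t ht σ _ hr
      have hcost := cost' k m b σ t ht.le
      have hS : cheap n k m b t (σ (pos t)) (bought (cheap n k m b) σ t) := by
        refine ⟨by omega, ?_⟩
        rw [if_pos ht]
        intro v hv
        exact (Finset.mem_filter.1 (hr v hv)).2
      rw [hposv t ht] at hS
      rcases bought_succ (cheap n k m b) σ t with ⟨h', h2, h3⟩ | ⟨h2, _⟩
      · rw [h3, Finset.card_insert_of_notMem (notMem_bought _ _ _ _)]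
      · exact absurd hS (h2 _))
    (by
      intro t ht σ h
      refine h.trans (Nat.mul_le_mul_left q (Finset.card_le_card (unsat_anti (bought_mono _ _ (Nat.le_succ t))))))
    p hp1
    (by
      intro t ht σ hK
      refine ⟨(univ.filter (fun i : Fin (n.choose 2) => t ≤ (i:ℕ))).filter
        (fun q => ∀ v ∈ (σ q).1, v ∈ unsat k (bought (cheap n k m b) σ t)), Finset.filter_subset _ _,
        fun q hq => (Finset.mem_filter.1 hq).2, ?_⟩
      rw [card_positions σ (fun i => t ≤ (i:ℕ))
        (fun e => ∀ v ∈ e.1, v ∈ unsat k (bought (cheap n k m b) σ t))]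
      have h1 := hnum _ hK
      have h2 := edges_in (unsat k (bought (cheap n k m b) σ t))
      have h3 : (univ.filter (fun e : Edge n => ∀ v ∈ e.1, v ∈ unsat k (bought (cheap n k m b) σ t))).card
          ≤ (univ.filter (fun e : Edge n => t ≤ ((σ.symm e : Fin (n.choose 2)) : ℕ) ∧
              ∀ v ∈ e.1, v ∈ unsat k (bought (cheap n k m b) σ t))).card + (shown σ t).card := by
        rw [← Finset.card_union_add_card_inter]
        refine le_trans (Finset.card_le_card ?_) (Nat.le_add_right _ _)
        intro e he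
        rw [Finset.mem_union, Finset.mem_filter, mem_shown]
        by_cases hh : t ≤ ((σ.symm e : Fin (n.choose 2)) : ℕ)
        · left; exact ⟨Finset.mem_univ _, hh, (Finset.mem_filter.1 he).2⟩
        · right; omega
      have h4 := card_shown_le σ t
      have h5 : ((univ.filter (fun i : Fin (n.choose 2) => t ≤ (i:ℕ))).card : ℝ) ≤ (n.choose 2 : ℕ) := by
        have := Finset.card_le_univ (univ.filter (fun i : Fin (n.choose 2) => t ≤ (i:ℕ)))
        rw [Fintype.card_fin] at this
        exact_mod_cast this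
      have h6 : p * ((univ.filter (fun i : Fin (n.choose 2) => t ≤ (i:ℕ))).card : ℝ)
          ≤ p * (n.choose 2 : ℕ) := mul_le_mul_of_nonneg_left h5 hp0
      have h7 : ((univ.filter (fun e : Edge n => ∀ v ∈ e.1, v ∈ unsat k (bought (cheap n k m b) σ t))).card : ℝ)
          ≤ ((univ.filter (fun e : Edge n => t ≤ ((σ.symm e : Fin (n.choose 2)) : ℕ) ∧
              ∀ v ∈ e.1, v ∈ unsat k (bought (cheap n k m b) σ t))).card : ℝ) + m := by
        have : (univ.filter (fun e : Edge n => ∀ v ∈ e.1, v ∈ unsat k (bought (cheap n k m b) σ t))).card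
          ≤ (univ.filter (fun e : Edge n => t ≤ ((σ.symm e : Fin (n.choose 2)) : ℕ) ∧
              ∀ v ∈ e.1, v ∈ unsat k (bought (cheap n k m b) σ t))).card + m := by omega
        exact_mod_cast this
      rw [h2] at h7
      linarith)
    (k * n) ?_
  intro σ _
  have := cost' k m b σ m le_rfl
  omega

theorem mid_sw (σ : Ordering n) (m s : ℕ) (p q : Fin (n.choose 2))
    (hp : ¬ (m ≤ (p:ℕ) ∧ (p:ℕ) < s)) (hq : ¬ (m ≤ (q:ℕ) ∧ (q:ℕ) < s)) :
    mid (sw p q σ) m s = mid σ m s := by
  ext e
  rw [mem_mid, mem_mid, sw_symm_apply]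
  by_cases h1 : σ.symm e = p
  · rw [h1, Equiv.swap_apply_left]
    constructor
    · intro h; exact absurd h hq
    · intro h; exact absurd h hp
  · by_cases h2 : σ.symm e = q
    · rw [h2, Equiv.swap_apply_right]
      constructor
      · intro h; exact absurd h hp
      · intro h; exact absurd h hq
    · rw [Equiv.swap_apply_of_ne_of_ne h1 h2]

/-- Part C: the degrees in the second phase. -/
theorem partC (k m T : ℕ) (hk : k ≤ n) (hT : m + T ≤ n.choose 2) (v : Fin n)
    (p : ℝ) (hp0 : 0 ≤ p) (hp1 : p ≤ 1) (hp : p * (n.choose 2 : ℕ) ≤ n - k) :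
    cnt (fun σ => deg (mid σ m (m + T)) v < k)
      ≤ 2 ^ k * (1 - p / 2) ^ T * (Fintype.card (Ordering n) : ℝ) := by
  classical
  rcases Nat.eq_zero_or_pos T with rfl | hT0
  · have h1 := cnt_le (fun σ : Ordering n => deg (mid σ m (m + 0)) v < k)
    have h2 : (1:ℝ) ≤ 2 ^ k := one_le_pow₀ (by norm_num)
    have h3 := ord_pos n
    rw [pow_zero, mul_one]
    nlinarith
  have hN : 0 < n.choose 2 := by omega
  set pos : ℕ → Fin (n.choose 2) := fun t => ⟨(m + t) % (n.choose 2), Nat.mod_lt _ hN⟩ with hpos
  have hposv : ∀ t (ht : t < T), pos t = ⟨m + t, by omega⟩ := by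
    intro t ht
    simp only [hpos]
    exact Fin.ext (Nat.mod_eq_of_lt (by omega))
  have hinv : ∀ t, Inv (univ.filter (fun i : Fin (n.choose 2) => ¬ (m ≤ (i:ℕ) ∧ (i:ℕ) < m + t)))
      (fun σ : Ordering n => mid σ m (m + t)) := by
    intro t σ a ha c hc
    exact mid_sw σ m (m+t) a c (Finset.mem_filter.1 ha).2 (Finset.mem_filter.1 hc).2
  have hsucc : ∀ t < T, ∀ σ : Ordering n, deg (mid σ m (m + (t+1))) v
      = deg (mid σ m (m + t)) v + (if v ∈ (σ (pos t)).1 then 1 else 0) := by
    intro t ht σ
    have h1 : mid σ m (m + (t+1)) = insert (σ (pos t)) (mid σ m (m + t)) := by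
      ext e
      rw [Finset.mem_insert, mem_mid, mem_mid]
      constructor
      · rintro ⟨h1, h2⟩
        by_cases h3 : (σ.symm e : ℕ) = m + t
        · left
          have : σ.symm e = pos t := by rw [hposv t ht]; exact Fin.ext h3
          rw [← this]; simp
        · right; omega
      · rintro (rfl | h1)
        · rw [hposv t ht]; simp
        · omega
    rw [h1, deg_insert]
    rw [mem_mid, hposv t ht]; simp
  refine cov (P := Fin (n.choose 2)) (E := Edge n) T
    (fun t => univ.filter (fun i : Fin (n.choose 2) => ¬ (m ≤ (i:ℕ) ∧ (i:ℕ) < m + t))) pos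
    (by intro t ht; rw [hposv t ht]; simp)
    (fun t σ e => v ∈ e.1)
    (fun t σ => deg (mid σ m (m + t)) v < k)
    (fun t σ => deg (mid σ m (m + t)) v)
    (by
      intro t ht σ a ha c hc
      rfl)
    (by
      intro t ht σ a ha c hc
      have := hinv t σ a ha c hc
      simp only at this
      simp only [this])
    (by
      intro t ht σ a ha c hc
      have := hinv t σ a ha c hc
      simp only at this
      simp only [this])
    (by
      intro t ht σ _
      have := hsucc t ht σ
      omega)
    (by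
      intro t ht σ _ hr
      have := hsucc t ht σ
      simp only [hr, if_true] at this
      omega)
    (by
      intro t ht σ h
      have := hsucc t ht σ
      omega)
    p hp1
    (by
      intro t ht σ hK
      refine ⟨(univ.filter (fun i : Fin (n.choose 2) => ¬ (m ≤ (i:ℕ) ∧ (i:ℕ) < m + t))).filter
        (fun q => v ∈ (σ q).1), Finset.filter_subset _ _,
        fun q hq => (Finset.mem_filter.1 hq).2, ?_⟩
      rw [card_positions σ (fun i => ¬ (m ≤ (i:ℕ) ∧ (i:ℕ) < m + t)) (fun e => v ∈ e.1)]
      have h2 := deg_univ v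
      have h3 : deg (univ : Finset (Edge n)) v
          ≤ (univ.filter (fun e : Edge n => ¬ (m ≤ ((σ.symm e : Fin (n.choose 2)) : ℕ) ∧
              ((σ.symm e : Fin (n.choose 2)) : ℕ) < m + t) ∧ v ∈ e.1)).card
            + deg (mid σ m (m+t)) v := by
        unfold deg
        rw [← Finset.card_union_add_card_inter]
        refine le_trans (Finset.card_le_card ?_) (Nat.le_add_right _ _)
        intro e he
        rw [Finset.mem_union, Finset.mem_filter, Finset.mem_filter, mem_mid]
        by_cases hh : m ≤ ((σ.symm e : Fin (n.choose 2)) : ℕ) ∧ ((σ.symm e : Fin (n.choose 2)) : ℕ) < m + t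
        · right; exact ⟨hh, (Finset.mem_filter.1 he).2⟩
        · left; exact ⟨Finset.mem_univ _, hh, (Finset.mem_filter.1 he).2⟩
      have h5 : ((univ.filter (fun i : Fin (n.choose 2) => ¬ (m ≤ (i:ℕ) ∧ (i:ℕ) < m + t))).card : ℝ)
          ≤ (n.choose 2 : ℕ) := by
        have := Finset.card_le_univ (univ.filter (fun i : Fin (n.choose 2) => ¬ (m ≤ (i:ℕ) ∧ (i:ℕ) < m + t)))
        rw [Fintype.card_fin] at this
        exact_mod_cast this
      have h6 : p * ((univ.filter (fun i : Fin (n.choose 2) => ¬ (m ≤ (i:ℕ) ∧ (i:ℕ) < m + t))).card : ℝ)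
          ≤ p * (n.choose 2 : ℕ) := mul_le_mul_of_nonneg_left h5 hp0
      have h7 : n ≤ (univ.filter (fun e : Edge n => ¬ (m ≤ ((σ.symm e : Fin (n.choose 2)) : ℕ) ∧
              ((σ.symm e : Fin (n.choose 2)) : ℕ) < m + t) ∧ v ∈ e.1)).card + k := by omega
      have h8 : (n:ℝ) ≤ ((univ.filter (fun e : Edge n => ¬ (m ≤ ((σ.symm e : Fin (n.choose 2)) : ℕ) ∧
              ((σ.symm e : Fin (n.choose 2)) : ℕ) < m + t) ∧ v ∈ e.1)).card : ℝ) + k := by
        exact_mod_cast h7
      linarith)
    k (fun σ h => le_of_lt h)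

end Pool.Agent.X145.BB
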